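import Pool.Agent.BVM_h40.Los
import Pool.Agent.W_MP_83aea7_lc.Transfer

/-!
# Countable well-founded models from Boolean-valued models

A countable set `N` of names closed under witnesses, and an ultrafilter meeting the countably many
suprema which determine the ranks of the names in `N`, give a countable well-founded elementary
submodel of the quotient.
-/

universe u v

namespace BVM

open IM.BSet HESR
open IM (BSet)

variable {D : Type u} [CompleteBooleanAlgebra D]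

/-! ### The lemma of Rasiowa and Sikorski -/

/-- Every proper filter is contained in an ultrafilter. -/
theorem exists_isUF_of_filter (f : Set D) (hf1 : ⊤ ∈ f) (hf2 : ⊥ ∉ f)
    (hf3 : ∀ x ∈ f, ∀ y, x ≤ y → y ∈ f) (hf4 : ∀ x ∈ f, ∀ y ∈ f, x ⊓ y ∈ f) :
    ∃ lam : D → Prop, IsUF lam ∧ ∀ x ∈ f, lam x := by
  classical
  let F : Set (Set D) := {s | ⊤ ∈ s ∧ ⊥ ∉ s ∧ (∀ x ∈ s, ∀ y, x ≤ y → y ∈ s) ∧
    ∀ x ∈ s, ∀ y ∈ s, x ⊓ y ∈ s}
  have hF0 : f ∈ F := ⟨hf1, hf2, hf3, hf4⟩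
  obtain ⟨m, hfm, hmF, hmax⟩ : ∃ m, f ⊆ m ∧ m ∈ F ∧ ∀ t ∈ F, m ⊆ t → t ⊆ m := by
    obtain ⟨m, h1, h2⟩ := zorn_subset_nonempty F (by
      intro c hc hchain hne
      obtain ⟨s0, hs0⟩ := hne
      refine ⟨⋃₀ c, ⟨⟨s0, hs0, (hc hs0).1⟩, ?_, ?_, ?_⟩, fun s hs => Set.subset_sUnion_of_mem hs⟩
      · rintro ⟨s, hs, hb⟩
        exact (hc hs).2.1 hb
      · rintro x ⟨s, hs, hx⟩ y hxy
        exact ⟨s, hs, (hc hs).2.2.1 x hx y hxy⟩
      · rintro x ⟨s, hs, hx⟩ y ⟨t, ht, hy⟩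
        rcases hchain.total hs ht with h | h
        · exact ⟨t, ht, (hc ht).2.2.2 x (h hx) y hy⟩
        · exact ⟨s, hs, (hc hs).2.2.2 x hx y (h hy)⟩) _ hF0
    exact ⟨m, h1, h2.prop, fun t ht hmt => h2.le_of_ge ht hmt⟩
  obtain ⟨hm1, hm2, hm3, hm4⟩ := hmF
  refine ⟨fun x => x ∈ m, ⟨hm1, hm2, ?_, ?_, ?_⟩, fun x hx => hfm hx⟩
  · intro x y hxy hx
    exact hm3 x hx y hxy
  · intro x y hx hy
    exact hm4 x hx y hy
  · intro x
    by_contra hc
    push Not at hc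
    have hx1 : ∀ y ∈ m, y ⊓ x ≠ ⊥ := by
      intro y hy hyx
      apply hc.2
      exact hm3 y hy xᶜ (le_compl_iff_disjoint_right.2 (disjoint_iff.2 hyx))
    have ht : {z | ∃ y ∈ m, y ⊓ x ≤ z} ∈ F := by
      refine ⟨⟨⊤, hm1, le_top⟩, ?_, ?_, ?_⟩
      · rintro ⟨y, hy, hyx⟩
        exact hx1 y hy (le_bot_iff.1 hyx)
      · rintro z ⟨y, hy, hyx⟩ w hzw
        exact ⟨y, hy, hyx.trans hzw⟩
      · rintro z ⟨y, hy, hyx⟩ w ⟨y', hy', hyx'⟩
        refine ⟨y ⊓ y', hm4 y hy y' hy', le_inf ?_ ?_⟩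
        · exact (inf_le_inf_right _ inf_le_left).trans hyx
        · exact (inf_le_inf_right _ inf_le_right).trans hyx'
    have hsub := hmax _ ht (fun z hz => ⟨z, hz, inf_le_left⟩)
    exact hc.1 (hsub ⟨⊤, hm1, inf_le_right⟩)

theorem rs_step {a : D} (ha : a ≠ ⊥) {S : Set D} (hS : sSup S = ⊤) : ∃ s ∈ S, a ⊓ s ≠ ⊥ := by
  by_contra hc
  push Not at hc
  apply ha
  rw [← inf_top_eq a, ← hS, inf_sSup_eq]
  simp only [iSup_eq_bot]
  exact hc

/-- The lemma of Rasiowa and Sikorski. -/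
theorem rasiowa_sikorski {a : D} (ha : a ≠ ⊥) (S : ℕ → Set D) (hS : ∀ n, sSup (S n) = ⊤) :
    ∃ lam : D → Prop, IsUF lam ∧ lam a ∧ ∀ n, ∃ s ∈ S n, lam s := by
  choose g hg1 hg2 using fun (x : {x : D // x ≠ ⊥}) (n : ℕ) => rs_step x.2 (hS n)
  let c : ℕ → {x : D // x ≠ ⊥} := fun n =>
    Nat.rec (motive := fun _ => {x : D // x ≠ ⊥}) ⟨a, ha⟩ (fun n x => ⟨x.1 ⊓ g x n, hg2 x n⟩) n
  have hc0 : (c 0).1 = a := rfl
  have hcs : ∀ n, (c (n + 1)).1 = (c n).1 ⊓ g (c n) n := fun n => rfl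
  have hanti : Antitone fun n => (c n).1 := antitone_nat_of_succ_le fun n => by
    rw [hcs]
    exact inf_le_left
  obtain ⟨lam, hl, hlam⟩ := exists_isUF_of_filter {x | ∃ n, (c n).1 ≤ x} ⟨0, le_top⟩
    (by
      rintro ⟨n, hn⟩
      exact (c n).2 (le_bot_iff.1 hn))
    (by
      rintro x ⟨n, hn⟩ y hxy
      exact ⟨n, hn.trans hxy⟩)
    (by
      rintro x ⟨n, hn⟩ y ⟨m, hm⟩
      refine ⟨max n m, le_inf ?_ ?_⟩
      · exact (hanti (le_max_left n m)).trans hn
      · exact (hanti (le_max_right n m)).trans hm)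
  refine ⟨lam, hl, hlam a ⟨0, le_of_eq hc0⟩, fun n => ⟨g (c n) n, hg1 _ _, hlam _ ⟨n + 1, ?_⟩⟩⟩
  rw [hcs]
  exact inf_le_right

/-! ### Countably many formulas -/

/-- The depth of a formula. -/
def fmlDepth : {k : ℕ} → HESR.Fml k → ℕ
  | _, .mem _ _ => 0
  | _, .eq _ _ => 0
  | _, .neg φ => fmlDepth φ + 1
  | _, .and φ ψ => max (fmlDepth φ) (fmlDepth ψ) + 1
  | _, .ex φ => fmlDepth φ + 1

theorem countable_fmlDepth (n : ℕ) : ∀ k : ℕ, {φ : HESR.Fml k | fmlDepth φ ≤ n}.Countable := by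
  induction n with
  | zero =>
    intro k
    refine Set.Countable.mono (s₂ := Set.range (fun p : Fin k × Fin k => HESR.Fml.mem p.1 p.2) ∪
      Set.range (fun p : Fin k × Fin k => HESR.Fml.eq p.1 p.2)) ?_
      ((Set.countable_range _).union (Set.countable_range _))
    intro φ hφ
    cases φ with
    | mem i j => exact Or.inl ⟨(i, j), rfl⟩
    | eq i j => exact Or.inr ⟨(i, j), rfl⟩
    | neg φ => simp [fmlDepth] at hφ
    | and φ ψ => simp [fmlDepth] at hφ
    | ex φ => simp [fmlDepth] at hφ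
  | succ n ih =>
    intro k
    refine Set.Countable.mono (s₂ := ((Set.range (fun p : Fin k × Fin k => HESR.Fml.mem p.1 p.2) ∪
      Set.range (fun p : Fin k × Fin k => HESR.Fml.eq p.1 p.2)) ∪
      (HESR.Fml.neg '' {φ : HESR.Fml k | fmlDepth φ ≤ n} ∪
        Set.image2 HESR.Fml.and {φ : HESR.Fml k | fmlDepth φ ≤ n} {φ : HESR.Fml k | fmlDepth φ ≤ n})) ∪
      HESR.Fml.ex '' {φ : HESR.Fml (k + 1) | fmlDepth φ ≤ n}) ?_ ?_
    · intro φ hφ
      cases φ with
      | mem i j => exact Or.inl (Or.inl (Or.inl ⟨(i, j), rfl⟩))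
      | eq i j => exact Or.inl (Or.inl (Or.inr ⟨(i, j), rfl⟩))
      | neg φ =>
        refine Or.inl (Or.inr (Or.inl ⟨φ, ?_, rfl⟩))
        simpa [fmlDepth] using hφ
      | and φ ψ =>
        have h : fmlDepth φ ≤ n ∧ fmlDepth ψ ≤ n := by simpa [fmlDepth] using hφ
        exact Or.inl (Or.inr (Or.inr ⟨φ, h.1, ψ, h.2, rfl⟩))
      | ex φ =>
        refine Or.inr ⟨φ, ?_, rfl⟩
        simpa [fmlDepth] using hφ
    · refine Set.Countable.union (Set.Countable.union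
        ((Set.countable_range _).union (Set.countable_range _)) (Set.Countable.union ?_ ?_)) ?_
      · exact (ih k).image _
      · exact (ih k).image2 (ih k) _
      · exact (ih (k + 1)).image _

instance countable_fml (k : ℕ) : Countable (HESR.Fml k) := by
  rw [← Set.countable_univ_iff]
  have h : (Set.univ : Set (HESR.Fml k)) = ⋃ n : ℕ, {φ : HESR.Fml k | fmlDepth φ ≤ n} := by
    ext φ
    simp only [Set.mem_univ, Set.mem_iUnion, true_iff]
    exact ⟨fmlDepth φ, Nat.le_refl (fmlDepth φ)⟩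
  rw [h]
  exact Set.countable_iUnion fun n => countable_fmlDepth n k

/-- Closure under countably many operations and witnesses. -/
theorem exists_names_closed (W : BSet D → BSet D → BSet D) (x0 : BSet D) :
    ∃ N : Set (BSet D), N.Countable ∧ x0 ∈ N ∧ (∀ x ∈ N, ∀ y ∈ N, W x y ∈ N) ∧
      ∀ (k : ℕ) (φ : HESR.Fml (k + 1)) (w : Fin k → BSet D), (∀ i, w i ∈ N) →
        ∃ x ∈ N, (⨆ y, tvH φ (Fin.cons y w)) = tvH φ (Fin.cons x w) := by
  choose wit hwit using fun (k : ℕ) (φ : HESR.Fml (k + 1)) (w : Fin k → BSet D) =>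
    full1 _ (ext1_tvH φ w)
  let G : Set (BSet D) → Set (BSet D) := fun s => (s ∪ Set.image2 W s s) ∪
    ⋃ (k : ℕ), ⋃ (φ : HESR.Fml (k + 1)), wit k φ '' {w : Fin k → BSet D | ∀ i, w i ∈ s}
  have hG1 : ∀ s, s ⊆ G s := fun s x hx => Or.inl (Or.inl hx)
  have hG2 : ∀ s, ∀ x ∈ s, ∀ y ∈ s, W x y ∈ G s := fun s x hx y hy =>
    Or.inl (Or.inr ⟨x, hx, y, hy, rfl⟩)
  have hG3 : ∀ (s : Set (BSet D)) (k : ℕ) (φ : HESR.Fml (k + 1)) (w : Fin k → BSet D),
      (∀ i, w i ∈ s) → wit k φ w ∈ G s := by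
    intro s k φ w hw
    refine Or.inr ?_
    rw [Set.mem_iUnion]
    refine ⟨k, ?_⟩
    rw [Set.mem_iUnion]
    exact ⟨φ, w, hw, rfl⟩
  have hGc : ∀ s : Set (BSet D), s.Countable → (G s).Countable := by
    intro s hs
    refine Set.Countable.union (hs.union (hs.image2 hs _)) ?_
    refine Set.countable_iUnion fun k => Set.countable_iUnion fun φ => Set.Countable.image ?_ _
    exact Set.countable_pi fun _ => hs
  let M : ℕ → Set (BSet D) := fun n => G^[n] {x0}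
  have hM0 : M 0 = {x0} := rfl
  have hMs : ∀ n, M (n + 1) = G (M n) := fun n => Function.iterate_succ_apply' G n _
  have hMc : ∀ n, (M n).Countable := by
    intro n
    induction n with
    | zero => exact Set.countable_singleton _
    | succ n ih =>
      rw [hMs]
      exact hGc _ ih
  have hmono : Monotone M := monotone_nat_of_le_succ fun n => by
    rw [hMs]
    exact hG1 _
  refine ⟨⋃ n, M n, Set.countable_iUnion hMc, Set.mem_iUnion.2 ⟨0, rfl⟩, ?_, ?_⟩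
  · intro x hx y hy
    obtain ⟨n, hn⟩ := Set.mem_iUnion.1 hx
    obtain ⟨m, hm⟩ := Set.mem_iUnion.1 hy
    refine Set.mem_iUnion.2 ⟨max n m + 1, ?_⟩
    rw [hMs]
    exact hG2 _ x (hmono (le_max_left n m) hn) y (hmono (le_max_right n m) hm)
  · intro k φ w hw
    choose n hn using fun i => Set.mem_iUnion.1 (hw i)
    refine ⟨wit k φ w, Set.mem_iUnion.2 ⟨Finset.univ.sup n + 1, ?_⟩, hwit k φ w⟩
    rw [hMs]
    exact hG3 _ k φ w fun i => hmono (Finset.le_sup (Finset.mem_univ i)) (hn i)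

/-- The submodel given by a set of names. -/
abbrev Mdl {lam : D → Prop} (hl : IsUF lam) (N : Set (BSet D)) : Type (u + 1) :=
  {x : X hl // ∃ z ∈ N, val hl z = x}

/-- Its membership relation. -/
def EM {lam : D → Prop} (hl : IsUF lam) (N : Set (BSet D)) (x y : Mdl hl N) : Prop := E hl x.1 y.1

/-- Elementarity. -/
theorem elem_mdl {lam : D → Prop} (hl : IsUF lam) (N : Set (BSet D))
    (hN : ∀ (k : ℕ) (φ : HESR.Fml (k + 1)) (w : Fin k → BSet D), (∀ i, w i ∈ N) →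
        ∃ x ∈ N, (⨆ y, tvH φ (Fin.cons y w)) = tvH φ (Fin.cons x w))
    {k : ℕ} (φ : HESR.Fml k) (v : Fin k → Mdl hl N) :
    HESR.Sat (EM hl N) φ v ↔ HESR.Sat (E hl) φ fun i => (v i).1 := by
  induction φ with
  | mem i j => exact Iff.rfl
  | eq i j => exact Subtype.ext_iff
  | neg φ ih =>
    simp only [HESR.Sat]
    rw [ih]
  | and φ ψ ih1 ih2 =>
    simp only [HESR.Sat]
    rw [ih1, ih2]
  | @ex k φ ih =>
    simp only [HESR.Sat]
    have hcons : ∀ x : Mdl hl N, (fun i => ((Fin.cons x v : Fin (k + 1) → Mdl hl N) i).1) =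
        (Fin.cons x.1 (fun i => (v i).1) : Fin (k + 1) → X hl) := by
      intro x
      funext i
      refine Fin.cases ?_ (fun i => ?_) i
      · simp only [Fin.cons_zero]
      · simp only [Fin.cons_succ]
    constructor
    · rintro ⟨x, hx⟩
      refine ⟨x.1, ?_⟩
      rw [← hcons]
      exact (ih _).1 hx
    · intro h
      choose w hwN hw using fun i => (v i).2
      have hv : (fun i => (v i).1) = fun i => val hl (w i) := funext fun i => (hw i).symm
      have h1 : HESR.Sat (E hl) (HESR.Fml.ex φ) (fun i => val hl (w i)) := by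
        rw [← hv]
        exact h
      rw [los] at h1
      obtain ⟨x, hxN, hx⟩ := hN k φ w hwN
      simp only [tvH] at h1
      rw [hx, ← los hl, cons_val, ← hv] at h1
      refine ⟨⟨val hl x, x, hxN, rfl⟩, ?_⟩
      rw [ih, hcons]
      exact h1

/-- The submodel is a model of ZFC. -/
theorem zfc_mdl {lam : D → Prop} (hl : IsUF lam) (N : Set (BSet D))
    (hN : ∀ (k : ℕ) (φ : HESR.Fml (k + 1)) (w : Fin k → BSet D), (∀ i, w i ∈ N) →
        ∃ x ∈ N, (⨆ y, tvH φ (Fin.cons y w)) = tvH φ (Fin.cons x w)) :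
    HESR.IsZFC (EM hl N) := by
  refine Equiv0.zfc (E := E hl) (fun σ => ?_) (BVM.zfc hl)
  rw [elem_mdl hl N hN]
  have h : (fun i : Fin 0 => ((Fin.elim0 i : Mdl hl N)).1) = (Fin.elim0 : Fin 0 → X hl) :=
    funext fun i => i.elim0
  rw [h]

/-! ### Ranks of names -/

/-- The truth value of `rank x ≤ o`. -/
noncomputable def rkLe : BSet D → Ordinal.{u} → D
  | mk α A B, o => ⨅ a : α, (B a)ᶜ ⊔ ⨆ k : Set.Iio o, rkLe (A a) k.1

theorem rkLe_eq (x : BSet D) (o : Ordinal.{u}) :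
    rkLe x o = ⨅ a : x.ty, (x.wt a)ᶜ ⊔ ⨆ k : Set.Iio o, rkLe (x.fn a) k.1 := by
  rcases x with ⟨α, A, B⟩
  rw [rkLe]
  rfl

theorem rkLe_wt (x : BSet D) (o : Ordinal.{u}) (b : x.ty) :
    rkLe x o ⊓ x.wt b ≤ ⨆ k : Set.Iio o, rkLe (x.fn b) k.1 := by
  rw [← le_compl_sup_iff, rkLe_eq]
  exact iInf_le _ b

theorem rkLe_congr (x : BSet D) : ∀ (y : BSet D) (o : Ordinal.{u}),
    beq x y ⊓ rkLe y o ≤ rkLe x o := by
  induction x with
  | mk α A B ih =>
    intro y o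
    conv_rhs => rw [rkLe_eq]
    refine le_iInf fun a => ?_
    rw [le_compl_sup_iff]
    change beq (mk α A B) y ⊓ rkLe y o ⊓ B a ≤ ⨆ k : Set.Iio o, rkLe (A a) k.1
    have h1 : beq (mk α A B) y ⊓ B a ≤ bmem (A a) y := by
      rw [← le_compl_sup_iff, beq_def]
      exact le_trans inf_le_left (iInf_le _ a)
    have h2 : beq (mk α A B) y ⊓ rkLe y o ⊓ B a ≤ bmem (A a) y ⊓ rkLe y o := by
      refine le_inf (le_trans (le_inf (inf_le_left.trans inf_le_left) inf_le_right) h1)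
        (inf_le_left.trans inf_le_right)
    refine h2.trans ?_
    rw [bmem, iSup_inf_eq]
    refine iSup_le fun b => ?_
    have h3 : y.wt b ⊓ beq (A a) (y.fn b) ⊓ rkLe y o ≤
        beq (A a) (y.fn b) ⊓ ⨆ k : Set.Iio o, rkLe (y.fn b) k.1 := by
      refine le_inf (inf_le_left.trans inf_le_right) ?_
      refine le_trans (le_inf inf_le_right (inf_le_left.trans inf_le_left)) (rkLe_wt y o b)
    refine h3.trans ?_
    rw [inf_iSup_eq]
    exact iSup_mono fun k => ih a _ _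

theorem rkLe_bmem (x y : BSet D) (o : Ordinal.{u}) :
    rkLe y o ⊓ bmem x y ≤ ⨆ k : Set.Iio o, rkLe x k.1 := by
  rw [bmem, inf_iSup_eq]
  refine iSup_le fun b => ?_
  have h1 : rkLe y o ⊓ (y.wt b ⊓ beq x (y.fn b)) ≤
      beq x (y.fn b) ⊓ ⨆ k : Set.Iio o, rkLe (y.fn b) k.1 := by
    refine le_inf (inf_le_right.trans inf_le_right) ?_
    exact le_trans (le_inf inf_le_left (inf_le_right.trans inf_le_left)) (rkLe_wt y o b)
  refine h1.trans ?_
  rw [inf_iSup_eq]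
  exact iSup_mono fun k => rkLe_congr _ _ _

theorem exists_rkLe_top (x : BSet D) : ∃ o : Ordinal.{u}, rkLe x o = ⊤ := by
  induction x with
  | mk α A B ih =>
    choose θ hθ using ih
    refine ⟨⨆ a : α, Order.succ (θ a), ?_⟩
    rw [rkLe, iInf_eq_top]
    intro a
    have h1 : θ a < ⨆ a : α, Order.succ (θ a) :=
      lt_of_lt_of_le (Order.lt_succ (θ a)) (Ordinal.le_iSup (fun a => Order.succ (θ a)) a)
    rw [eq_top_iff, ← hθ a]
    exact le_sup_of_le_right (le_iSup (fun k : Set.Iio (⨆ a : α, Order.succ (θ a)) =>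
      rkLe (A a) k.1) ⟨θ a, h1⟩)

/-- The truth value of `rank x = o`. -/
noncomputable def rkEq (x : BSet D) (o : Ordinal.{u}) : D :=
  rkLe x o ⊓ (⨆ k : Set.Iio o, rkLe x k.1)ᶜ

theorem sSup_rkEq (x : BSet D) : sSup (Set.range (rkEq x)) = ⊤ := by
  have key : ∀ o : Ordinal.{u}, rkLe x o ≤ sSup (Set.range (rkEq x)) := by
    intro o
    induction o using WellFoundedLT.induction with
    | ind o ih =>
      have h1 : (⨆ k : Set.Iio o, rkLe x k.1) ≤ sSup (Set.range (rkEq x)) :=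
        iSup_le fun k => ih k.1 k.2
      have h2 : rkEq x o ≤ sSup (Set.range (rkEq x)) := le_sSup ⟨o, rfl⟩
      calc rkLe x o = (rkLe x o ⊓ (⨆ k : Set.Iio o, rkLe x k.1)) ⊔
            (rkLe x o ⊓ (⨆ k : Set.Iio o, rkLe x k.1)ᶜ) := by
            rw [← inf_sup_left, sup_compl_eq_top, inf_top_eq]
        _ ≤ sSup (Set.range (rkEq x)) := sup_le (inf_le_right.trans h1) h2
  obtain ⟨o, ho⟩ := exists_rkLe_top x
  rw [eq_top_iff, ← ho]
  exact key o

theorem rkEq_lt {lam : D → Prop} (hl : IsUF lam) {x y : BSet D} {o p : Ordinal.{u}}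
    (hx : lam (rkEq x o)) (hy : lam (rkEq y p)) (hxy : lam (bmem x y)) : o < p := by
  by_contra hc
  push Not at hc
  obtain ⟨hx1, hx2⟩ := hl.inf_iff.1 hx
  obtain ⟨hy1, hy2⟩ := hl.inf_iff.1 hy
  rw [hl.compl_iff] at hx2
  apply hx2
  refine hl.mono ?_ (hl.mono (rkLe_bmem x y p) (hl.inf hy1 hxy))
  refine iSup_le fun k => ?_
  exact le_iSup (fun k : Set.Iio o => rkLe x k.1) ⟨k.1, lt_of_lt_of_le k.2 hc⟩

/-- For a countable set of names there is an ultrafilter such that the submodel is well-founded. -/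
theorem exists_wf {a : D} (ha : a ≠ ⊥) (N : Set (BSet D)) (hN : N.Countable) :
    ∃ (lam : D → Prop) (hl : IsUF lam), lam a ∧ WellFounded (EM hl N) := by
  obtain ⟨lam, hl, hla, hmeet⟩ : ∃ lam : D → Prop, IsUF lam ∧ lam a ∧
      ∀ x ∈ N, ∃ o : Ordinal.{u}, lam (rkEq x o) := by
    rcases N.eq_empty_or_nonempty with hemp | hne
    · obtain ⟨lam, hl, hla⟩ := exists_isUF ha
      refine ⟨lam, hl, hla, fun x hx => ?_⟩
      rw [hemp] at hx
      exact absurd hx (Set.notMem_empty x)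
    · obtain ⟨f, rfl⟩ := hN.exists_eq_range hne
      obtain ⟨lam, hl, hla, hm⟩ := rasiowa_sikorski ha (fun n => Set.range (rkEq (f n)))
        fun n => sSup_rkEq (f n)
      refine ⟨lam, hl, hla, ?_⟩
      rintro x ⟨n, rfl⟩
      obtain ⟨s, ⟨o, rfl⟩, hs⟩ := hm n
      exact ⟨o, hs⟩
  refine ⟨lam, hl, hla, ?_⟩
  choose z hzN hz using fun x : Mdl hl N => x.2
  choose o ho using fun x : Mdl hl N => hmeet (z x) (hzN x)
  have hsub : ∀ x y : Mdl hl N, EM hl N x y → o x < o y := by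
    intro x y hxy
    have h1 : E hl (val hl (z x)) (val hl (z y)) := by
      rw [hz, hz]
      exact hxy
    exact rkEq_lt hl (ho x) (ho y) (E_val.1 h1)
  exact Subrelation.wf (fun {x y} h => hsub x y h) (InvImage.wf o wellFounded_lt)

end BVM
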