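import Pool.Agent.BVM_h40.ZFC
import Pool.Agent.W_MP_83aea7_lc.Transfer

/-!
# Truth values of the formulas `HESR.Fml`, the theorem of Łoś, ZFC in the format of `HESR`

The formulas, models of ZFC and set-theoretic notions are those of `W_MP_83aea7_lc` (helper32);
`X hl` is the quotient of `BSet D` by the ultrafilter `lam`.
-/

universe u v

namespace BVM

open IM.BSet
open IM (BSet)

variable {D : Type u} [CompleteBooleanAlgebra D] {lam : D → Prop} {hl : IsUF lam}

/-- The truth value of a formula. -/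
noncomputable def tvH : {k : ℕ} → HESR.Fml k → (Fin k → BSet D) → D
  | _, .mem i j, v => bmem (v i) (v j)
  | _, .eq i j, v => beq (v i) (v j)
  | _, .neg φ, v => (tvH φ v)ᶜ
  | _, .and φ ψ, v => tvH φ v ⊓ tvH ψ v
  | _, .ex φ, v => ⨆ x : BSet D, tvH φ (Fin.cons x v)

theorem tvH_ext {k : ℕ} (φ : HESR.Fml k) :
    ∀ v w : Fin k → BSet D, (⨅ n, beq (v n) (w n)) ⊓ tvH φ v ≤ tvH φ w := by
  induction φ with
  | mem i j =>
    intro v w
    simp only [tvH]
    have e1 : (⨅ n, beq (v n) (w n)) ⊓ bmem (v i) (v j) ≤ bmem (w i) (v j) :=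
      le_trans (inf_le_inf_right _ (iInf_le _ i)) (bmem_congr_left _ _ _)
    exact le_trans (le_inf (le_trans inf_le_left (iInf_le _ j)) e1) (bmem_congr_right _ _ _)
  | eq i j =>
    intro v w
    simp only [tvH]
    have e1 : (⨅ n, beq (v n) (w n)) ⊓ beq (v i) (v j) ≤ beq (w i) (v j) := by
      refine le_trans (inf_le_inf_right _ (iInf_le _ i)) ?_
      rw [beq_symm (v i) (w i)]
      exact beq_trans _ _ _
    refine le_trans (le_inf e1 (le_trans inf_le_left (iInf_le _ j))) (beq_trans _ _ _)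
  | neg φ ih =>
    intro v w
    simp only [tvH]
    refine compl_step ?_
    have e : (⨅ n, beq (v n) (w n)) = ⨅ n, beq (w n) (v n) := iInf_congr fun n => beq_symm _ _
    rw [e]
    exact ih w v
  | and φ ψ ih1 ih2 =>
    intro v w
    simp only [tvH]
    refine le_inf ?_ ?_
    · exact (inf_le_inf_left _ inf_le_left).trans (ih1 v w)
    · exact (inf_le_inf_left _ inf_le_right).trans (ih2 v w)
  | ex φ ih =>
    intro v w
    simp only [tvH]
    rw [inf_iSup_eq]
    refine iSup_mono fun x => ?_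
    refine (inf_le_inf_right _ ?_).trans (ih (Fin.cons x v) (Fin.cons x w))
    refine le_iInf fun n => ?_
    refine Fin.cases ?_ (fun i => ?_) n
    · simp only [Fin.cons_zero]
      rw [beq_refl]
      exact le_top
    · simp only [Fin.cons_succ]
      exact iInf_le _ i

/-- `tvH φ` is extensional in the variable `0`. -/
theorem ext1_tvH {k : ℕ} (φ : HESR.Fml (k + 1)) (v : Fin k → BSet D) :
    Ext1 fun x => tvH φ (Fin.cons x v) := by
  intro x y
  refine le_trans (inf_le_inf_right _ ?_) (tvH_ext φ (Fin.cons x v) (Fin.cons y v))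
  refine le_iInf fun n => ?_
  refine Fin.cases ?_ (fun i => ?_) n
  · simp only [Fin.cons_zero]
    exact le_rfl
  · simp only [Fin.cons_succ]
    rw [beq_refl]
    exact le_top

/-- `tvH φ` is extensional in the variable `1`. -/
theorem ext1_tvH' {k : ℕ} (φ : HESR.Fml (k + 2)) (x : BSet D) (v : Fin k → BSet D) :
    Ext1 fun y => tvH φ (Fin.cons x (Fin.cons y v)) := by
  intro y z
  refine le_trans (inf_le_inf_right _ ?_)
    (tvH_ext φ (Fin.cons x (Fin.cons y v)) (Fin.cons x (Fin.cons z v)))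
  refine le_iInf fun n => ?_
  refine Fin.cases ?_ (fun i => ?_) n
  · simp only [Fin.cons_zero]
    rw [beq_refl]
    exact le_top
  · simp only [Fin.cons_succ]
    refine Fin.cases ?_ (fun i => ?_) i
    · simp only [Fin.cons_zero]
      exact le_rfl
    · simp only [Fin.cons_succ]
      rw [beq_refl]
      exact le_top

theorem cons_val {k : ℕ} (hl : IsUF lam) (x : BSet D) (v : Fin k → BSet D) :
    (fun i => val hl ((Fin.cons x v : Fin (k + 1) → BSet D) i)) =
      (Fin.cons (val hl x) (fun i => val hl (v i)) : Fin (k + 1) → X hl) := by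
  funext i
  refine Fin.cases ?_ (fun i => ?_) i
  · simp only [Fin.cons_zero]
  · simp only [Fin.cons_succ]

/-- The theorem of Łoś. -/
theorem los (hl : IsUF lam) {k : ℕ} (φ : HESR.Fml k) : ∀ v : Fin k → BSet D,
    HESR.Sat (E hl) φ (fun i => val hl (v i)) ↔ lam (tvH φ v) := by
  induction φ with
  | mem i j =>
    intro v
    exact E_val
  | eq i j =>
    intro v
    exact val_eq
  | neg φ ih =>
    intro v
    simp only [tvH, HESR.Sat]
    rw [ih, hl.compl_iff]
  | and φ ψ ih1 ih2 =>
    intro v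
    simp only [tvH, HESR.Sat]
    rw [ih1, ih2, hl.inf_iff]
  | ex φ ih =>
    intro v
    simp only [tvH, HESR.Sat]
    constructor
    · rintro ⟨x, hx⟩
      obtain ⟨a, rfl⟩ := exists_name x
      rw [← cons_val, ih] at hx
      exact hl.mono (le_iSup (fun x => tvH φ (Fin.cons x v)) a) hx
    · intro h
      obtain ⟨a, ha⟩ := exists_of_iSup hl (ext1_tvH φ v) h
      refine ⟨val hl a, ?_⟩
      rw [← cons_val, ih]
      exact ha

/-- Names for a tuple of the quotient. -/
theorem exists_names {k : ℕ} (v : Fin k → X hl) : ∃ w : Fin k → BSet D, (fun i => val hl (w i)) = v :=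
  ⟨fun i => (v i).rep, funext fun _ => val_rep _⟩

/-! ### Semantic forcing -/

/-- Order in `D` is decided by the ultrafilters. -/
theorem le_iff_ultra {a b : D} : a ≤ b ↔ ∀ lam : D → Prop, IsUF lam → lam a → lam b := by
  constructor
  · intro h lam hl ha
    exact hl.mono h ha
  · intro h
    by_contra hc
    have h1 : a ⊓ bᶜ ≠ ⊥ := by
      intro h2
      apply hc
      rw [← disjoint_iff, disjoint_compl_right_iff] at h2
      exact h2
    obtain ⟨lam, hl, hlam⟩ := exists_isUF h1
    have h2 := hl.inf_iff.1 hlam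
    exact hl.compl_iff.1 h2.2 (h lam hl h2.1)

/-- `a` forces `φ(v)` iff `φ` holds in all quotients by ultrafilters containing `a`. -/
theorem le_tvH_iff {a : D} {k : ℕ} (φ : HESR.Fml k) (v : Fin k → BSet D) :
    a ≤ tvH φ v ↔ ∀ (lam : D → Prop) (hl : IsUF lam), lam a →
      HESR.Sat (E hl) φ (fun i => val hl (v i)) := by
  rw [le_iff_ultra]
  refine forall_congr' fun lam => forall_congr' fun hl => imp_congr_right fun _ => ?_
  exact (los hl φ v).symm

theorem tvH_eq_top_iff {k : ℕ} (φ : HESR.Fml k) (v : Fin k → BSet D) :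
    tvH φ v = ⊤ ↔ ∀ (lam : D → Prop) (hl : IsUF lam),
      HESR.Sat (E hl) φ (fun i => val hl (v i)) := by
  rw [← top_le_iff, le_tvH_iff]
  exact forall_congr' fun lam => forall_congr' fun hl =>
    ⟨fun h => h hl.top, fun h _ => h⟩

/-! ### ZFC in the format of `HESR` -/

/-- The quotient is a model of ZFC. -/
theorem zfc (hl : IsUF lam) : HESR.IsZFC (E hl) where
  ext := ax_ext
  found := ax_foundation
  pair := ax_pairing
  union := ax_union
  power := ax_powerset
  inf := by
    obtain ⟨a, ⟨z, hz1, hz2⟩, h⟩ := ax_infinity (hl := hl)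
    refine ⟨a, ⟨z, hz2, hz1⟩, fun x hx => ?_⟩
    obtain ⟨y, hy1, hy2⟩ := h x hx
    exact ⟨y, hy2, hy1⟩
  choice := by
    intro a h1 h2
    obtain ⟨c, hc⟩ := ax_choice a h1 fun x y hx hy h => by
      obtain ⟨z, hz1, hz2⟩ := h
      exact h2 x y z hx hy hz1 hz2
    refine ⟨c, fun x hx => ?_⟩
    obtain ⟨y, hy, hy'⟩ := hc x hx
    exact ⟨y, hy, fun z hz1 hz2 => hy' z ⟨hz1, hz2⟩⟩
  sep := by
    intro k φ v a
    obtain ⟨a, rfl⟩ := exists_name a
    obtain ⟨w, rfl⟩ := exists_names v
    refine ⟨val hl (mk a.ty a.fn fun i => a.wt i ⊓ tvH φ (Fin.cons (a.fn i) w)), fun x => ?_⟩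
    obtain ⟨x, rfl⟩ := exists_name x
    rw [← cons_val, los, E_val, E_val, ← hl.inf_iff, IM.bf_bmem_inf x a (ext1_tvH φ w)]
    rfl
  repl := by
    intro k φ v a h
    obtain ⟨a, rfl⟩ := exists_name a
    obtain ⟨w, rfl⟩ := exists_names v
    have hs : ∀ x y : BSet D, HESR.Sat (E hl) φ (Fin.cons (val hl x)
        (Fin.cons (val hl y) fun i => val hl (w i))) ↔ lam (tvH φ (Fin.cons x (Fin.cons y w))) := by
      intro x y
      rw [← cons_val, ← cons_val, los]
    have hR1 : ∀ y : BSet D, Ext1 fun x => tvH φ (Fin.cons x (Fin.cons y w)) := fun y =>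
      ext1_tvH φ _
    have hR2 : ∀ x : BSet D, Ext1 fun y => tvH φ (Fin.cons x (Fin.cons y w)) := fun x =>
      ext1_tvH' φ x w
    choose W hW using fun i : a.ty => full1 _ (hR2 (a.fn i))
    set b : BSet D := mk a.ty W fun i => a.wt i ⊓ tvH φ (Fin.cons (a.fn i) (Fin.cons (W i) w)) with hb
    refine ⟨val hl b, fun y => ?_⟩
    obtain ⟨y, rfl⟩ := exists_name y
    rw [E_val]
    constructor
    · intro hy
      have h1 : bmem y b ≤ ⨆ x : BSet D, bmem x a ⊓ tvH φ (Fin.cons x (Fin.cons y w)) := by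
        rw [bmem]
        refine iSup_le fun i => ?_
        change (a.wt i ⊓ tvH φ (Fin.cons (a.fn i) (Fin.cons (W i) w))) ⊓ beq y (W i) ≤ _
        refine le_iSup_of_le (a.fn i) (le_inf ?_ ?_)
        · exact inf_le_left.trans (inf_le_left.trans (wt_le_bmem a i))
        · have h2 := hR2 (a.fn i) (W i) y
          rw [beq_symm] at h2
          exact le_trans (le_inf inf_le_right (inf_le_left.trans inf_le_right)) h2
      obtain ⟨x, hx⟩ := exists_of_iSup hl (IM.bf_ext1_bmem_inf a (hR1 y)) (hl.mono h1 hy)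
      obtain ⟨hx1, hx2⟩ := hl.inf_iff.1 hx
      exact ⟨val hl x, E_val.2 hx1, (hs x y).2 hx2⟩
    · rintro ⟨x, hx, hxy⟩
      obtain ⟨x, rfl⟩ := exists_name x
      have h1 := hl.inf (E_val.1 hx) ((hs x y).1 hxy)
      have h2 : bmem x a ⊓ tvH φ (Fin.cons x (Fin.cons y w)) ≤
          ⨆ z, bmem z b ⊓ tvH φ (Fin.cons x (Fin.cons z w)) := by
        rw [bmem, iSup_inf_eq]
        refine iSup_le fun i => le_iSup_of_le (W i) ?_
        have h3 := hR1 y x (a.fn i)
        have h4 : tvH φ (Fin.cons (a.fn i) (Fin.cons y w)) ≤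
            tvH φ (Fin.cons (a.fn i) (Fin.cons (W i) w)) := by
          rw [← hW i]
          exact le_iSup (fun y => tvH φ (Fin.cons (a.fn i) (Fin.cons y w))) y
        have h5 : a.wt i ⊓ beq x (a.fn i) ⊓ tvH φ (Fin.cons x (Fin.cons y w)) ≤
            tvH φ (Fin.cons (a.fn i) (Fin.cons (W i) w)) := by
          refine le_trans ?_ h4
          refine le_trans (le_inf (inf_le_left.trans inf_le_right) inf_le_right) h3
        refine le_inf ?_ ?_
        · refine le_trans ?_ (wt_le_bmem b i)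
          exact le_inf (inf_le_left.trans inf_le_left) h5
        · have h6 := hR1 (W i) (a.fn i) x
          rw [beq_symm] at h6
          exact le_trans (le_inf (inf_le_left.trans inf_le_right) h5) h6
      obtain ⟨z, hz⟩ := exists_of_iSup hl (IM.bf_ext1_bmem_inf _ (hR2 x)) (hl.mono h2 h1)
      obtain ⟨hz1, hz2⟩ := hl.inf_iff.1 hz
      have h3 := h _ hx _ _ hxy ((hs x z).2 hz2)
      rw [← E_val (hl := hl)] at hz1 ⊢
      rwa [h3]

end BVM
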