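import Pool.Agent.BVM_h40.TD
import Pool.Agent.W_MP_83aea7_lc.Ord

/-!
# Names: pairs, relations, ordinals
-/

universe u v

namespace BVM

open IM.BSet HESR
open IM (BSet)

variable {D : Type u} [CompleteBooleanAlgebra D] {lam : D → Prop} {hl : IsUF lam}

/-! ### Membership in names -/

theorem E_mk_iff {ι : Type u} {f : ι → BSet D} {w : ι → D} {z : BSet D} :
    E hl (val hl z) (val hl (mk ι f w)) ↔ lam (⨆ i, w i ⊓ beq z (f i)) := E_val

theorem E_mk_of {ι : Type u} {f : ι → BSet D} {w : ι → D} (i : ι) (h : lam (w i)) :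
    E hl (val hl (f i)) (val hl (mk ι f w)) :=
  E_val.2 (hl.mono (wt_le_bmem (mk ι f w) i) h)

theorem E_nm_iff {ι : Type u} {f : ι → BSet D} {z : BSet D} :
    E hl (val hl z) (val hl (nm f)) ↔ lam (⨆ i, beq z (f i)) := by
  rw [E_val, bmem_nm]

theorem E_nm_of {ι : Type u} {f : ι → BSet D} (i : ι) : E hl (val hl (f i)) (val hl (nm f)) :=
  E_mk_of i hl.top

theorem E_nm_of' {ι : Type u} {f : ι → BSet D} (i : ι) {z : X hl} (h : z = val hl (f i)) :
    E hl z (val hl (nm f)) := by
  rw [h]
  exact E_nm_of i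

/-! ### Pairs -/

/-- Unordered pair. -/
def upB (a b : BSet D) : BSet D := nm (ι := ULift.{u} Bool) fun c => cond c.down a b

theorem isUPair_upB (a b : BSet D) : IsUPair (E hl) (val hl (upB a b)) (val hl a) (val hl b) := by
  intro x
  obtain ⟨x, rfl⟩ := exists_name x
  rw [upB, E_nm_iff, val_eq, val_eq]
  have : (⨆ i : ULift.{u} Bool, beq x (cond i.down a b)) = beq x a ⊔ beq x b := by
    apply le_antisymm
    · refine iSup_le ?_
      rintro ⟨_ | _⟩
      · exact le_sup_right
      · exact le_sup_left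
    · refine sup_le ?_ ?_
      · exact le_iSup (fun i : ULift.{u} Bool => beq x (cond i.down a b)) ⟨true⟩
      · exact le_iSup (fun i : ULift.{u} Bool => beq x (cond i.down a b)) ⟨false⟩
  rw [this, hl.sup_iff]

/-- Ordered pair. -/
def prB (a b : BSet D) : BSet D := upB (upB a a) (upB a b)

theorem isPair_prB (a b : BSet D) : IsPair (E hl) (val hl (prB a b)) (val hl a) (val hl b) :=
  ⟨_, _, isUPair_upB a a, isUPair_upB a b, isUPair_upB _ _⟩

theorem eq_prB {p : X hl} {a b : BSet D} (h : IsPair (E hl) p (val hl a) (val hl b)) :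
    p = val hl (prB a b) := IsPair.uniq (zfc hl) h (isPair_prB a b)

theorem beq_prB (a b c d : BSet D) : beq (prB a b) (prB c d) = beq a c ⊓ beq b d := by
  rw [eq_iff_ultra]
  intro lam hl
  rw [hl.inf_iff, ← val_eq (hl := hl), ← val_eq (hl := hl), ← val_eq (hl := hl)]
  constructor
  · intro h
    have h1 := isPair_prB (hl := hl) a b
    rw [h] at h1
    exact IsPair.inj (zfc hl) h1 (isPair_prB c d)
  · rintro ⟨h1, h2⟩
    have h3 := isPair_prB (hl := hl) a b
    rw [h1, h2] at h3
    exact eq_prB h3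

/-! ### Relations -/

/-- The name of the set of the pairs `(f i, g i)` with weights `w i`. -/
def relB {ι : Type u} (f g : ι → BSet D) (w : ι → D) : BSet D := mk ι (fun i => prB (f i) (g i)) w

theorem app_relB {ι : Type u} {f g : ι → BSet D} {w : ι → D} {x y : BSet D} :
    App (E hl) (val hl (relB f g w)) (val hl x) (val hl y) ↔
      lam (⨆ i, w i ⊓ (beq x (f i) ⊓ beq y (g i))) := by
  have h : App (E hl) (val hl (relB f g w)) (val hl x) (val hl y) ↔
      E hl (val hl (prB x y)) (val hl (relB f g w)) := by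
    constructor
    · rintro ⟨p, hp, hxy⟩
      rwa [← eq_prB hxy]
    · intro h
      exact ⟨_, h, isPair_prB x y⟩
  rw [h, relB, E_mk_iff]
  simp only [beq_prB]

theorem app_relB_of {ι : Type u} {f g : ι → BSet D} {w : ι → D} (i : ι) (h : lam (w i)) :
    App (E hl) (val hl (relB f g w)) (val hl (f i)) (val hl (g i)) :=
  ⟨_, E_mk_of (f := fun i => prB (f i) (g i)) i h, isPair_prB _ _⟩

/-- A statement about all pairs in a relation. -/
theorem forall_app_relB {P : ∀ (lam : D → Prop) (hl : IsUF lam), X hl → X hl → Prop}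
    (h : TD (k := 2) fun lam hl v => P lam hl (v 0) (v 1)) {ι : Type u} {f g : ι → BSet D}
    {w : ι → D} {a : D}
    (h1 : ∀ (i : ι) (lam : D → Prop) (hl : IsUF lam), lam a → lam (w i) →
      P lam hl (val hl (f i)) (val hl (g i)))
    {lam : D → Prop} {hl : IsUF lam} (hlam : lam a) :
    ∀ x y, App (E hl) (val hl (relB f g w)) x y → P lam hl x y := by
  have h2 : TD1 (D := D) fun lam hl z => ∀ x y, IsPair (E hl) z x y → P lam hl x y := by
    refine TD.all (P := fun lam hl x v => ∀ y, IsPair (E hl) (v 0) x y → P lam hl x y) ?_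
    refine TD.all (P := fun lam hl y v => IsPair (E hl) (v 1) (v 0) y → P lam hl (v 0) y) ?_
    refine TD.imp (TD.isPair (Tm.var 2) (Tm.var 1) (Tm.var 0)) ?_
    obtain ⟨b, hb⟩ := h
    exact ⟨fun w => b ![w 1, w 0], fun lam hl w => by
      have := hb lam hl ![w 1, w 0]
      simpa using this⟩
  have h3 := forall_mk h2 (ι := ι) (f := fun i => prB (f i) (g i)) (w := w) (a := a) (by
    intro i lam hl hlam hw x y hxy
    obtain ⟨h3, h4⟩ := IsPair.inj (zfc hl) hxy (isPair_prB _ _)
    rw [h3, h4]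
    exact h1 i lam hl hlam hw) (hl := hl) hlam
  rintro x y ⟨p, hp, hxy⟩
  exact h3 p hp x y hxy

/-- A relation between names which respects equality is functional. -/
theorem functional_relB {ι : Type u} {f g : ι → BSet D} {w : ι → D} {a : D}
    (h : ∀ i j, a ⊓ (w i ⊓ w j ⊓ beq (f i) (f j)) ≤ beq (g i) (g j)) {lam : D → Prop}
    {hl : IsUF lam} (hlam : lam a) :
    ∀ x y z, App (E hl) (val hl (relB f g w)) x y → App (E hl) (val hl (relB f g w)) x z →
      y = z := by
  intro x y z hxy hxz
  revert z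
  refine forall_app_relB (P := fun lam hl x y =>
    ∀ z, App (E hl) (val hl (relB f g w)) x z → y = z) ?_ (a := a) ?_ hlam x y hxy
  · refine TD.all (P := fun lam hl z v => App (E hl) (val hl (relB f g w)) (v 0) z → v 1 = z) ?_
    exact TD.imp (TD.app (Tm.const _) (Tm.var 1) (Tm.var 0)) (TD.eq (Tm.var 2) (Tm.var 0))
  · intro i lam hl hlam hwi z hz
    have key : ∀ x y, App (E hl) (val hl (relB f g w)) x y → x = val hl (f i) → val hl (g i) = y := by
      refine forall_app_relB (P := fun lam hl x y => x = val hl (f i) → val hl (g i) = y) ?_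
        (a := a ⊓ w i) ?_ (hl.inf hlam hwi)
      · exact TD.imp (TD.eq (Tm.var 0) (Tm.const _)) (TD.eq (Tm.const _) (Tm.var 1))
      · intro j lam hl hlam hwj he
        obtain ⟨h1, h2⟩ := hl.inf_iff.1 hlam
        rw [val_eq] at he ⊢
        rw [beq_symm] at he
        exact hl.mono (h i j) (hl.inf h1 (hl.inf (hl.inf h2 hwj) he))
    exact key _ _ hz rfl

/-- The name of the function `f i ↦ g i` on `nm f`. -/
def fnB {ι : Type u} (f g : ι → BSet D) : BSet D := relB f g fun _ => ⊤

theorem app_fnB_of {ι : Type u} {f g : ι → BSet D} (i : ι) :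
    App (E hl) (val hl (fnB f g)) (val hl (f i)) (val hl (g i)) := app_relB_of i hl.top

theorem isFun_fnB {ι : Type u} {f g : ι → BSet D} (h : ∀ i j, beq (f i) (f j) ≤ beq (g i) (g j)) :
    IsFun (E hl) (val hl (fnB f g)) (val hl (nm f)) := by
  have hfun := functional_relB (f := f) (g := g) (w := fun _ => ⊤) (a := ⊤)
    (fun i j => by simpa using h i j) (hl := hl) hl.top
  constructor
  · refine forall_mk (P := fun lam hl p => ∃ x y, E hl x (val hl (nm f)) ∧ IsPair (E hl) p x y) ?_
      (a := ⊤) ?_ hl.top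
    · refine TD.ex (P := fun lam hl x v => ∃ y, E hl x (val hl (nm f)) ∧ IsPair (E hl) (v 0) x y) ?_
      refine TD.ex (P := fun lam hl y v => E hl (v 0) (val hl (nm f)) ∧ IsPair (E hl) (v 1) (v 0) y) ?_
      exact TD.and (TD.mem (Tm.var 1) (Tm.const _)) (TD.isPair (Tm.var 2) (Tm.var 1) (Tm.var 0))
    · intro i lam hl _ _
      exact ⟨_, _, E_nm_of i, isPair_prB _ _⟩
  · refine forall_nm (P := fun lam hl x => ∃! y, App (E hl) (val hl (fnB f g)) x y) ?_
      (a := ⊤) ?_ hl.top
    · refine (TD.ex (P := fun lam hl y v => App (E hl) (val hl (fnB f g)) (v 0) y ∧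
        ∀ z, App (E hl) (val hl (fnB f g)) (v 0) z → z = y) ?_)
      refine TD.and (TD.app (Tm.const _) (Tm.var 1) (Tm.var 0)) ?_
      refine TD.all (P := fun lam hl z v => App (E hl) (val hl (fnB f g)) (v 1) z → z = v 0) ?_
      exact TD.imp (TD.app (Tm.const _) (Tm.var 2) (Tm.var 0)) (TD.eq (Tm.var 0) (Tm.var 1))
    · intro i lam hl _
      exact ⟨_, app_fnB_of i, fun z hz =>
        functional_relB (f := f) (g := g) (w := fun _ => ⊤) (a := ⊤)
          (fun i j => by simpa using h i j) (hl := hl) hl.top _ _ _ hz (app_fnB_of i)⟩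

end BVM
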