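import Pool.Agent.BVM_h40.Names
import Pool.Agent.W_MP_315f31_lc.C.Card

/-!
# Names of well-orders and of natural numbers; countable families of names
-/

universe u v

namespace BVM

open IM.BSet HESR
open IM (BSet)

variable {D : Type u} [CompleteBooleanAlgebra D] {lam : D → Prop} {hl : IsUF lam}

/-! ### Well-orders -/

section chk

variable {W : Type u} [LinearOrder W] [WellFoundedLT W]

/-- The name of the ordinal of the initial segment below `w`. -/
noncomputable def chk : W → BSet D :=
  WellFounded.fix (C := fun _ => BSet D) (wellFounded_lt (α := W))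
    fun w ih => nm fun v : Set.Iio w => ih v.1 v.2

theorem chk_eq (w : W) : (chk w : BSet D) = nm fun v : Set.Iio w => chk v.1 := by
  unfold chk
  rw [WellFounded.fix_eq]

theorem E_chk_of {v w : W} (h : v < w) : E hl (val hl (chk v)) (val hl (chk w)) := by
  rw [chk_eq w]
  exact E_nm_of (f := fun v : Set.Iio w => (chk v.1 : BSet D)) ⟨v, h⟩

theorem val_chk_inj {v w : W} : val hl (chk v : BSet D) = val hl (chk w) ↔ v = w := by
  constructor
  · intro h
    rcases lt_trichotomy v w with h1 | h1 | h1
    · have h2 := E_chk_of (hl := hl) h1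
      rw [h] at h2
      exact absurd h2 ((zfc hl).irrefl _)
    · exact h1
    · have h2 := E_chk_of (hl := hl) h1
      rw [h] at h2
      exact absurd h2 ((zfc hl).irrefl _)
  · rintro rfl
    rfl

theorem E_chk {v w : W} : E hl (val hl (chk v)) (val hl (chk w)) ↔ v < w := by
  constructor
  · intro h
    rcases lt_trichotomy v w with h1 | h1 | h1
    · exact h1
    · subst h1
      exact absurd h ((zfc hl).irrefl _)
    · exact ((zfc hl).asymm h (E_chk_of (hl := hl) h1)).elim
  · exact E_chk_of

theorem beq_chk_ne {v w : W} (h : v ≠ w) : beq (chk v : BSet D) (chk w) = ⊥ := by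
  rw [eq_bot_iff_ultra]
  intro lam hl h1
  exact h ((val_chk_inj (hl := hl)).1 (val_eq.2 h1))

/-- The name of the ordinal of the well-order `W`. -/
noncomputable def chkT (W : Type u) [LinearOrder W] [WellFoundedLT W] : BSet D :=
  nm fun w : W => chk w

theorem E_chkT (w : W) : E hl (val hl (chk w)) (val hl (chkT W)) :=
  E_nm_of (f := fun w : W => (chk w : BSet D)) w

/-- A statement about all elements of `chk w`. -/
theorem forall_chk {P : ∀ (lam : D → Prop) (hl : IsUF lam), X hl → Prop} (h : TD1 P) {w : W} {a : D}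
    (h1 : ∀ v < w, ∀ (lam : D → Prop) (hl : IsUF lam), lam a → P lam hl (val hl (chk v)))
    {lam : D → Prop} {hl : IsUF lam} (hlam : lam a) :
    ∀ z, E hl z (val hl (chk w)) → P lam hl z := by
  rw [chk_eq w]
  exact forall_nm h (fun v lam hl hlam => h1 v.1 v.2 lam hl hlam) hlam

theorem forall_chkT {P : ∀ (lam : D → Prop) (hl : IsUF lam), X hl → Prop} (h : TD1 P) {a : D}
    (h1 : ∀ (w : W) (lam : D → Prop) (hl : IsUF lam), lam a → P lam hl (val hl (chk w)))
    {lam : D → Prop} {hl : IsUF lam} (hlam : lam a) :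
    ∀ z, E hl z (val hl (chkT W)) → P lam hl z :=
  forall_nm h h1 hlam

theorem exists_chk_iff {P : ∀ (lam : D → Prop) (hl : IsUF lam), X hl → Prop} (h : TD1 P) {w : W}
    {lam : D → Prop} {hl : IsUF lam} :
    (∃ z, E hl z (val hl (chk w)) ∧ P lam hl z) ↔ lam (⨆ v : Set.Iio w, TD.b1 h (chk v.1)) := by
  rw [chk_eq w]
  exact exists_nm_iff h

theorem exists_chkT_iff {P : ∀ (lam : D → Prop) (hl : IsUF lam), X hl → Prop} (h : TD1 P)
    {lam : D → Prop} {hl : IsUF lam} :
    (∃ z, E hl z (val hl (chkT W)) ∧ P lam hl z) ↔ lam (⨆ w : W, TD.b1 h (chk w)) :=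
  exists_nm_iff h

theorem isTr_chk (w : W) : IsTr (E hl) (val hl (chk w : BSet D)) := by
  refine forall_chk (P := fun lam hl y => ∀ z, E hl z y → E hl z (val hl (chk w))) ?_ (a := ⊤) ?_
    hl.top
  · exact TD.all (P := fun lam hl z v => E hl z (v 0) → E hl z (val hl (chk w)))
      (TD.imp (TD.mem (Tm.var 0) (Tm.var 1)) (TD.mem (Tm.var 0) (Tm.const _)))
  · intro v hv lam hl _
    refine forall_chk (P := fun lam hl z => E hl z (val hl (chk w)))
      (TD.mem (Tm.var 0) (Tm.const _)) (a := ⊤) ?_ hl.top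
    intro x hx lam hl _
    exact E_chk_of (hx.trans hv)

theorem isOrd_chk (w : W) : IsOrd (E hl) (val hl (chk w : BSet D)) := by
  refine ⟨isTr_chk w, ?_⟩
  refine forall_chk (P := fun lam hl y => IsTr (E hl) y) (TD.isTr (Tm.var 0)) (a := ⊤) ?_ hl.top
  intro v _ lam hl _
  exact isTr_chk v

theorem isOrd_chkT : IsOrd (E hl) (val hl (chkT W : BSet D)) := by
  constructor
  · refine forall_chkT (P := fun lam hl y => ∀ z, E hl z y → E hl z (val hl (chkT W))) ?_ (a := ⊤) ?_
      hl.top
    · exact TD.all (P := fun lam hl z v => E hl z (v 0) → E hl z (val hl (chkT W)))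
        (TD.imp (TD.mem (Tm.var 0) (Tm.var 1)) (TD.mem (Tm.var 0) (Tm.const _)))
    · intro v lam hl _
      refine forall_chk (P := fun lam hl z => E hl z (val hl (chkT W)))
        (TD.mem (Tm.var 0) (Tm.const _)) (a := ⊤) ?_ hl.top
      intro x _ lam hl _
      exact E_chkT x
  · refine forall_chkT (P := fun lam hl y => IsTr (E hl) y) (TD.isTr (Tm.var 0)) (a := ⊤) ?_ hl.top
    intro v lam hl _
    exact isTr_chk v

theorem isSucc_chk {v w : W} (h : ∀ x, x < w ↔ x ≤ v) :
    IsSucc (E hl) (val hl (chk w : BSet D)) (val hl (chk v)) := by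
  intro z
  constructor
  · revert z
    refine forall_chk (P := fun lam hl z => E hl z (val hl (chk v)) ∨ z = val hl (chk v)) ?_
      (a := ⊤) ?_ hl.top
    · exact TD.or (TD.mem (Tm.var 0) (Tm.const _)) (TD.eq (Tm.var 0) (Tm.const _))
    · intro x hx lam hl _
      rcases ((h x).1 hx).lt_or_eq with h1 | h1
      · exact Or.inl (E_chk_of h1)
      · exact Or.inr (by rw [h1])
  · rintro (h1 | rfl)
    · exact (isTr_chk w) _ (E_chk_of ((h v).2 le_rfl)) z h1
    · exact E_chk_of ((h v).2 le_rfl)

theorem isEmp_chk {w : W} (h : ∀ x, ¬ x < w) : IsEmp (E hl) (val hl (chk w : BSet D)) := by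
  intro y
  have h1 := forall_chk (D := D) (w := w) (P := fun lam hl z => False) TD.ff (a := ⊤)
    (fun v hv => (h v hv).elim) (hl := hl) hl.top
  exact fun hy => h1 y hy

end chk

/-! ### Natural numbers -/

theorem isEmp_natB : IsEmp (E hl) (val hl (natB 0 : BSet D)) := by
  intro y hy
  obtain ⟨y, rfl⟩ := exists_name y
  rw [E_val, bmem_natB_zero] at hy
  exact hl.bot hy

theorem isSucc_natB (n : ℕ) :
    IsSucc (E hl) (val hl (natB (n + 1) : BSet D)) (val hl (natB n)) := by
  intro z
  obtain ⟨z, rfl⟩ := exists_name z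
  rw [E_val, bmem_natB_succ, hl.sup_iff, E_val, val_eq]
  exact or_comm

theorem isNum_natB (n : ℕ) : IsNum (E hl) n (val hl (natB n : BSet D)) := by
  induction n with
  | zero => exact isEmp_natB
  | succ n ih => exact ⟨_, ih, isSucc_natB n⟩

theorem val_natB_inj {m n : ℕ} : val hl (natB m : BSet D) = val hl (natB n) ↔ m = n := by
  constructor
  · intro h
    have h1 := isNum_natB (D := D) (hl := hl) m
    rw [h] at h1
    exact IsNum.inj (zfc hl) h1 (isNum_natB n)
  · rintro rfl
    rfl

theorem beq_natB_ne {m n : ℕ} (h : m ≠ n) : beq (natB m : BSet D) (natB n) = ⊥ := by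
  rw [eq_bot_iff_ultra]
  intro lam hl h1
  exact h ((val_natB_inj (hl := hl)).1 (val_eq.2 h1))

theorem E_natB_of {m n : ℕ} (h : m < n) : E hl (val hl (natB m : BSet D)) (val hl (natB n)) := by
  induction n with
  | zero => exact absurd h (Nat.not_lt_zero m)
  | succ n ih =>
    rw [isSucc_natB n _]
    rcases (Nat.lt_succ_iff.1 h).lt_or_eq with h1 | h1
    · exact Or.inl (ih h1)
    · exact Or.inr (by rw [h1])

theorem E_natB {m n : ℕ} : E hl (val hl (natB m : BSet D)) (val hl (natB n)) ↔ m < n := by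
  constructor
  · intro h
    rcases lt_trichotomy m n with h1 | h1 | h1
    · exact h1
    · subst h1
      exact absurd h ((zfc hl).irrefl _)
    · exact ((zfc hl).asymm h (E_natB_of (hl := hl) h1)).elim
  · exact E_natB_of

/-- The name of `ω`. -/
def omB : BSet D := nm fun n : ULift.{u} ℕ => natB n.down

theorem E_omB (n : ℕ) : E hl (val hl (natB n)) (val hl (omB : BSet D)) :=
  E_nm_of (f := fun n : ULift.{u} ℕ => (natB n.down : BSet D)) ⟨n⟩

theorem forall_omB {P : ∀ (lam : D → Prop) (hl : IsUF lam), X hl → Prop} (h : TD1 P) {a : D}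
    (h1 : ∀ (n : ℕ) (lam : D → Prop) (hl : IsUF lam), lam a → P lam hl (val hl (natB n)))
    {lam : D → Prop} {hl : IsUF lam} (hlam : lam a) :
    ∀ z, E hl z (val hl omB) → P lam hl z :=
  forall_nm (f := fun n : ULift.{u} ℕ => (natB n.down : BSet D)) h (fun n => h1 n.down) hlam

theorem exists_omB_iff {P : ∀ (lam : D → Prop) (hl : IsUF lam), X hl → Prop} (h : TD1 P)
    {lam : D → Prop} {hl : IsUF lam} :
    (∃ z, E hl z (val hl omB) ∧ P lam hl z) ↔ lam (⨆ n : ℕ, TD.b1 h (natB n)) := by
  rw [omB, exists_nm_iff h]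
  refine iff_of_eq (congrArg _ ?_)
  apply le_antisymm
  · exact iSup_le fun n => le_iSup (fun n : ℕ => TD.b1 h (natB n)) n.down
  · exact iSup_le fun n => le_iSup (fun n : ULift.{u} ℕ => TD.b1 h (natB n.down)) ⟨n⟩

theorem isNat_natB (n : ℕ) : IsNat (E hl) (val hl (natB n : BSet D)) := (isNum_natB n).nat

theorem isOmega_omB : IsOmega (E hl) (val hl (omB : BSet D)) := by
  refine ⟨⟨?_, ?_⟩, ⟨_, E_omB 0⟩, ?_, ?_⟩
  · refine forall_omB (P := fun lam hl y => ∀ z, E hl z y → E hl z (val hl omB)) ?_ (a := ⊤) ?_ hl.top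
    · exact TD.all (P := fun lam hl z v => E hl z (v 0) → E hl z (val hl omB))
        (TD.imp (TD.mem (Tm.var 0) (Tm.var 1)) (TD.mem (Tm.var 0) (Tm.const _)))
    · intro n
      induction n with
      | zero =>
        intro lam hl _ z hz
        exact (isEmp_natB z hz).elim
      | succ n ih =>
        intro lam hl hlam z hz
        rcases (isSucc_natB n z).1 hz with h1 | rfl
        · exact ih lam hl hlam z h1
        · exact E_omB n
  · refine forall_omB (P := fun lam hl y => IsTr (E hl) y) (TD.isTr (Tm.var 0)) (a := ⊤) ?_ hl.top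
    intro n lam hl _
    exact (isNat_natB n).1.1
  · refine forall_omB (P := fun lam hl x => ∃ y, E hl y (val hl omB) ∧ IsSucc (E hl) y x) ?_ (a := ⊤)
      ?_ hl.top
    · exact TD.ex (P := fun lam hl y v => E hl y (val hl omB) ∧ IsSucc (E hl) y (v 0))
        (TD.and (TD.mem (Tm.var 0) (Tm.const _)) (TD.isSucc (Tm.var 0) (Tm.var 1)))
    · intro n lam hl _
      exact ⟨_, E_omB (n + 1), isSucc_natB n⟩
  · refine forall_omB (P := fun lam hl x => IsZS (E hl) x) (TD.isZS (Tm.var 0)) (a := ⊤) ?_ hl.top
    intro n lam hl _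
    exact (isNat_natB n).2.1

theorem eq_omB {w : X hl} (h : IsOmega (E hl) w) : w = val hl omB :=
  IsOmega.uniq (zfc hl) h isOmega_omB

/-! ### Coverings -/

/-- A functional relation in the quotient whose domain and range cover the given sets. -/
theorem cov_of_rel {f a b : X hl}
    (hf : ∀ x y z, App (E hl) f x y → App (E hl) f x z → y = z)
    (hs : ∀ y, E hl y a → ∃ x, E hl x b ∧ App (E hl) f x y) : Cov (E hl) b a :=
  Cov.ofRel (zfc hl) (R := fun x y => App (E hl) f x y)
    (App.df (DefFun.const _) (DefFun.var _) (DefFun.var _)) (fun x _ y z h1 h2 => hf x y z h1 h2)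
    hs

/-- Coverings given by names of partial functions between families of names. -/
theorem cov_names {J A : Type u} {j : J → BSet D} {f : A → BSet D} {c : D} (g : J → A → D)
    (hg : ∀ i i' x y, c ⊓ (g i x ⊓ g i' y ⊓ beq (j i) (j i')) ≤ beq (f x) (f y))
    (hc : ∀ x, c ≤ ⨆ i, g i x) (hl : IsUF lam) (hlam : lam c) :
    Cov (E hl) (val hl (nm j)) (val hl (nm f)) := by
  let R : BSet D := relB (ι := J × A) (fun p => j p.1) (fun p => f p.2) fun p => g p.1 p.2
  refine cov_of_rel (f := val hl R) ?_ ?_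
  · exact functional_relB (a := c) (fun p q => hg p.1 q.1 p.2 q.2) hlam
  · have hT : TD1 (D := D) fun lam hl x => App (E hl) (val hl R) x x := 
      TD.app (Tm.const _) (Tm.var 0) (Tm.var 0)
    refine forall_nm (P := fun lam hl y => ∃ x, E hl x (val hl (nm j)) ∧ App (E hl) (val hl R) x y) ?_
      (a := c) ?_ hlam
    · exact TD.ex (P := fun lam hl x v => E hl x (val hl (nm j)) ∧ App (E hl) (val hl R) x (v 0))
        (TD.and (TD.mem (Tm.var 0) (Tm.const _)) (TD.app (Tm.const _) (Tm.var 0) (Tm.var 1)))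
    · intro x lam hl hlam
      have hT : TD1 (D := D) fun lam hl z => App (E hl) (val hl R) z (val hl (f x)) :=
        TD.app (Tm.const _) (Tm.var 0) (Tm.const _)
      rw [exists_nm_iff hT]
      refine hl.mono ?_ hlam
      refine (hc x).trans (iSup_mono fun i => ?_)
      rw [TD.le_b1]
      intro lam hl h
      exact app_relB_of (f := fun p : J × A => j p.1) (g := fun p => f p.2) (i, x) h

/-- A surjection of the index types. -/
theorem cov_surj {J A : Type u} {j : J → BSet D} {f : A → BSet D}
    (hj : ∀ i i', i ≠ i' → beq (j i) (j i') = ⊥) (e : J → Option A)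
    (he : ∀ x, ∃ i, e i = some x) (hl : IsUF lam) :
    Cov (E hl) (val hl (nm j)) (val hl (nm f)) := by
  classical
  refine cov_names (c := (⊤ : D)) (fun i x => if e i = some x then ⊤ else ⊥) ?_ ?_ hl hl.top
  · intro i i' x y
    by_cases h : i = i'
    · subst h
      by_cases h1 : e i = some x
      · by_cases h2 : e i = some y
        · have h3 : x = y := by
            rw [h1] at h2
            exact Option.some.inj h2
          rw [h3, beq_refl (f y)]
          exact le_top
        · simp [h2]
      · simp [h1]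
    · rw [hj i i' h]
      simp
  · intro x
    obtain ⟨i, hi⟩ := he x
    refine le_iSup_of_le i ?_
    rw [if_pos hi]

/-- Countable families of names are countable in the quotient. -/
theorem cov_ctbl {A : Type u} [Countable A] (f : A → BSet D) (hl : IsUF lam) :
    Cov (E hl) (val hl omB) (val hl (nm f)) := by
  classical
  obtain ⟨e, he⟩ := exists_injective_nat A
  refine cov_surj (j := fun n : ULift.{u} ℕ => natB n.down) (fun i i' h => beq_natB_ne fun h' =>
    h (ULift.ext _ _ h')) (fun n => if h : ∃ x, e x = n.down then some h.choose else none) ?_ hl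
  intro x
  refine ⟨⟨e x⟩, ?_⟩
  have h : ∃ y, e y = e x := ⟨x, rfl⟩
  rw [dif_pos h]
  exact congrArg some (he h.choose_spec)

end BVM
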