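import Pool.Agent.W_MP_0bf392_lc.Mix
import Pool.Agent.W_MP_0bf392_lc.Frame

/-!
# Boolean-valued models: quotient by an arbitrary ultrafilter, the theorem of Łoś

`D` is any complete Boolean algebra, `BSet D` the Boolean-valued sets over `D`, `lam` any
ultrafilter on `D` (a predicate). `X lam` is the quotient, a model of set theory with the
membership relation `E`.
-/

universe u v

namespace BVM

open IM IM.BSet

variable {D : Type u} [CompleteBooleanAlgebra D]

/-- `lam` is an ultrafilter on `D`. -/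
structure IsUF (lam : D → Prop) : Prop where
  top : lam ⊤
  bot : ¬ lam ⊥
  mono : ∀ {a b : D}, a ≤ b → lam a → lam b
  inf : ∀ {a b : D}, lam a → lam b → lam (a ⊓ b)
  compl : ∀ a : D, lam a ∨ lam aᶜ

namespace IsUF

variable {lam : D → Prop} (hl : IsUF lam)

include hl

theorem inf_iff {a b : D} : lam (a ⊓ b) ↔ lam a ∧ lam b :=
  ⟨fun h => ⟨hl.mono inf_le_left h, hl.mono inf_le_right h⟩, fun h => hl.inf h.1 h.2⟩

theorem compl_iff {a : D} : lam aᶜ ↔ ¬ lam a := by
  constructor
  · intro h h'
    refine hl.bot ?_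
    rw [← inf_compl_eq_bot (a := a)]
    exact hl.inf h' h
  · intro h
    exact (hl.compl a).resolve_left h

theorem sup_iff {a b : D} : lam (a ⊔ b) ↔ lam a ∨ lam b := by
  constructor
  · intro h
    by_contra hc
    push Not at hc
    have h1 := hl.inf (hl.compl_iff.2 hc.1) (hl.compl_iff.2 hc.2)
    rw [← compl_sup] at h1
    exact hl.compl_iff.1 h1 h
  · rintro (h | h)
    · exact hl.mono le_sup_left h
    · exact hl.mono le_sup_right h

theorem iInf_finset {ι : Type*} (s : Finset ι) (a : ι → D) (h : ∀ i ∈ s, lam (a i)) :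
    lam (⨅ i ∈ s, a i) := by
  classical
  induction s using Finset.induction_on with
  | empty => simpa using hl.top
  | insert i s _ ih =>
    rw [Finset.iInf_insert]
    exact hl.inf (h i (Finset.mem_insert_self _ _))
      (ih fun k hk => h k (Finset.mem_insert_of_mem hk))

end IsUF

/-- Every nonzero element of a Boolean algebra belongs to an ultrafilter. -/
theorem exists_isUF {a : D} (ha : a ≠ ⊥) : ∃ lam : D → Prop, IsUF lam ∧ lam a := by
  classical
  -- proper filters containing `a`, as subsets of `D`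
  let F : Set (Set D) := {s | a ∈ s ∧ ⊥ ∉ s ∧ (∀ x ∈ s, ∀ y, x ≤ y → y ∈ s) ∧
    ∀ x ∈ s, ∀ y ∈ s, x ⊓ y ∈ s}
  have hF0 : {x | a ≤ x} ∈ F := by
    refine ⟨le_refl a, ?_, ?_, ?_⟩
    · intro h
      exact ha (le_bot_iff.1 h)
    · intro x hx y hxy
      exact le_trans hx hxy
    · intro x hx y hy
      exact le_inf hx hy
  obtain ⟨m, -, hmF, hmax⟩ : ∃ m, {x | a ≤ x} ⊆ m ∧ m ∈ F ∧ ∀ t ∈ F, m ⊆ t → t ⊆ m := by
    obtain ⟨m, h1, h2⟩ := zorn_subset_nonempty F (by
      intro c hc hchain hne
      obtain ⟨s0, hs0⟩ := hne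
      refine ⟨⋃₀ c, ⟨⟨s0, hs0, (hc hs0).1⟩, ?_, ?_, ?_⟩, fun s hs => Set.subset_sUnion_of_mem hs⟩
      · rintro ⟨s, hs, hb⟩
        exact (hc hs).2.1 hb
      · rintro x ⟨s, hs, hx⟩ y hxy
        exact ⟨s, hs, (hc hs).2.2.1 x hx y hxy⟩
      · rintro x ⟨s, hs, hx⟩ y ⟨t, ht, hy⟩
        rcases hchain.total hs ht with h | h
        · exact ⟨t, ht, (hc ht).2.2.2 x (h hx) y hy⟩
        · exact ⟨s, hs, (hc hs).2.2.2 x hx y (h hy)⟩) _ hF0
    exact ⟨m, h1, h2.prop, fun t ht hmt => h2.le_of_ge ht hmt⟩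
  obtain ⟨hm1, hm2, hm3, hm4⟩ := hmF
  refine ⟨fun x => x ∈ m, ⟨?_, hm2, ?_, ?_, ?_⟩, hm1⟩
  · exact hm3 a hm1 ⊤ le_top
  · intro x y hxy hx
    exact hm3 x hx y hxy
  · intro x y hx hy
    exact hm4 x hx y hy
  · intro x
    by_contra hc
    push Not at hc
    -- the filter generated by `m` and `x`
    have hx1 : ∀ y ∈ m, y ⊓ x ≠ ⊥ := by
      intro y hy hyx
      apply hc.2
      exact hm3 y hy xᶜ (le_compl_iff_disjoint_right.2 (disjoint_iff.2 hyx))
    have ht : {z | ∃ y ∈ m, y ⊓ x ≤ z} ∈ F := by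
      refine ⟨⟨a, hm1, inf_le_left⟩, ?_, ?_, ?_⟩
      · rintro ⟨y, hy, hyx⟩
        exact hx1 y hy (le_bot_iff.1 hyx)
      · rintro z ⟨y, hy, hyx⟩ w hzw
        exact ⟨y, hy, hyx.trans hzw⟩
      · rintro z ⟨y, hy, hyx⟩ w ⟨y', hy', hyx'⟩
        refine ⟨y ⊓ y', hm4 y hy y' hy', le_inf ?_ ?_⟩
        · exact (inf_le_inf_right _ inf_le_left).trans hyx
        · exact (inf_le_inf_right _ inf_le_right).trans hyx'
    have hsub := hmax _ ht (fun z hz => ⟨z, hz, inf_le_left⟩)
    exact hc.1 (hsub ⟨⊤, hm3 a hm1 ⊤ le_top, inf_le_right⟩)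

/-- Equality modulo the ultrafilter. -/
def qsetoid {lam : D → Prop} (hl : IsUF lam) : Setoid (BSet D) where
  r x y := lam (beq x y)
  iseqv := by
    refine ⟨fun x => ?_, fun {x y} h => ?_, fun {x y z} h1 h2 => ?_⟩
    · rw [beq_refl]
      exact hl.top
    · rw [beq_symm]
      exact h
    · exact hl.mono (beq_trans x y z) (hl.inf h1 h2)

/-- The quotient. -/
def X {lam : D → Prop} (hl : IsUF lam) : Type (u + 1) := Quotient (qsetoid hl)

variable {lam : D → Prop} {hl : IsUF lam}

/-- The class of a Boolean-valued set. -/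
def val (hl : IsUF lam) (x : BSet D) : X hl := Quotient.mk (qsetoid hl) x

/-- A representative. -/
noncomputable def X.rep (x : X hl) : BSet D := Quotient.out x

theorem val_rep (x : X hl) : val hl x.rep = x := Quotient.out_eq x

theorem val_eq {x y : BSet D} : val hl x = val hl y ↔ lam (beq x y) :=
  ⟨fun h => Quotient.exact (s := qsetoid hl) h, fun h => Quotient.sound (s := qsetoid hl) h⟩

theorem lam_rep (x : BSet D) : lam (beq (val hl x).rep x) := by
  rw [← val_eq (hl := hl)]
  exact val_rep _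

theorem lam_rep' (x : BSet D) : lam (beq x (val hl x).rep) := by
  rw [beq_symm]
  exact lam_rep x

/-- Every element of the quotient is the class of a name. -/
theorem exists_name (x : X hl) : ∃ a, val hl a = x := ⟨x.rep, val_rep x⟩

/-- Membership in the quotient. -/
def E (hl : IsUF lam) (x y : X hl) : Prop := lam (bmem x.rep y.rep)

theorem E_val {x y : BSet D} : E hl (val hl x) (val hl y) ↔ lam (bmem x y) := by
  constructor
  · intro h
    have h1 := hl.mono (bmem_congr_left _ _ _) (hl.inf (lam_rep x) h)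
    exact hl.mono (bmem_congr_right _ _ _) (hl.inf (lam_rep y) h1)
  · intro h
    have h1 := hl.mono (bmem_congr_left _ _ _) (hl.inf (lam_rep' (hl := hl) x) h)
    exact hl.mono (bmem_congr_right _ _ _) (hl.inf (lam_rep' (hl := hl) y) h1)

/-! ### Truth values of formulas -/

/-- The truth value of a formula. -/
def tv : Fml → (ℕ → BSet D) → D
  | .mem i k, v => bmem (v i) (v k)
  | .eq i k, v => beq (v i) (v k)
  | .neg φ, v => (tv φ v)ᶜ
  | .and φ ψ, v => tv φ v ⊓ tv ψ v
  | .all φ, v => ⨅ x : BSet D, tv φ (cons x v)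

/-- All free variables are below the bound. -/
def bd : Fml → ℕ
  | .mem i k => max i k + 1
  | .eq i k => max i k + 1
  | .neg φ => bd φ
  | .and φ ψ => max (bd φ) (bd ψ)
  | .all φ => bd φ

theorem tv_local (φ : Fml) : ∀ {v w : ℕ → BSet D}, (∀ n < bd φ, v n = w n) → tv φ v = tv φ w := by
  induction φ with
  | mem i k =>
    intro v w h
    simp only [tv, bd] at h ⊢
    rw [h i (by omega), h k (by omega)]
  | eq i k =>
    intro v w h
    simp only [tv, bd] at h ⊢
    rw [h i (by omega), h k (by omega)]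
  | neg φ ih =>
    intro v w h
    simp only [tv]
    rw [ih h]
  | and φ ψ ih1 ih2 =>
    intro v w h
    simp only [tv, bd] at h ⊢
    rw [ih1 fun n hn => h n (by omega), ih2 fun n hn => h n (by omega)]
  | all φ ih =>
    intro v w h
    simp only [tv, bd] at h ⊢
    refine iInf_congr fun x => ih fun n hn => ?_
    rcases n with _ | n
    · rfl
    · exact h n (by omega)

theorem le_cons (x : BSet D) (v w : ℕ → BSet D) :
    (⨅ n, beq (v n) (w n)) ≤ ⨅ n, beq (cons x v n) (cons x w n) := by
  refine le_iInf fun n => ?_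
  rcases n with _ | n
  · simp only [cons_zero]
    rw [beq_refl]
    exact le_top
  · exact iInf_le _ n

theorem extR_tv (φ : Fml) : ∀ v w : ℕ → BSet D, (⨅ n, beq (v n) (w n)) ⊓ tv φ v ≤ tv φ w := by
  induction φ with
  | mem i k =>
    intro v w
    simp only [tv]
    have e1 : (⨅ n, beq (v n) (w n)) ⊓ bmem (v i) (v k) ≤ bmem (w i) (v k) :=
      le_trans (inf_le_inf_right _ (iInf_le _ i)) (bmem_congr_left _ _ _)
    exact le_trans (le_inf (le_trans inf_le_left (iInf_le _ k)) e1) (bmem_congr_right _ _ _)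
  | eq i k =>
    intro v w
    simp only [tv]
    have e1 : (⨅ n, beq (v n) (w n)) ⊓ beq (v i) (v k) ≤ beq (w i) (v k) := by
      refine le_trans (inf_le_inf_right _ (iInf_le _ i)) ?_
      rw [beq_symm (v i) (w i)]
      exact beq_trans _ _ _
    refine le_trans (le_inf e1 (le_trans inf_le_left (iInf_le _ k))) (beq_trans _ _ _)
  | neg φ ih =>
    intro v w
    simp only [tv]
    refine compl_step ?_
    have e : (⨅ n, beq (v n) (w n)) = ⨅ n, beq (w n) (v n) := iInf_congr fun n => beq_symm _ _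
    rw [e]
    exact ih w v
  | and φ ψ ih1 ih2 =>
    intro v w
    simp only [tv]
    refine le_inf ?_ ?_
    · exact (inf_le_inf_left _ inf_le_left).trans (ih1 v w)
    · exact (inf_le_inf_left _ inf_le_right).trans (ih2 v w)
  | all φ ih =>
    intro v w
    simp only [tv]
    refine le_iInf fun x => ?_
    refine (inf_le_inf (le_cons x v w) (iInf_le _ x)).trans (ih _ _)

/-- `tv φ` is extensional in the variable `0`. -/
theorem ext1_tv (φ : Fml) (v : ℕ → BSet D) : Ext1 fun x => tv φ (cons x v) := by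
  intro x y
  refine le_trans (inf_le_inf_right _ ?_) (extR_tv φ (cons x v) (cons y v))
  refine le_iInf fun n => ?_
  rcases n with _ | n
  · exact le_rfl
  · simp only [cons_succ]
    rw [beq_refl]
    exact le_top

/-- Congruence modulo the ultrafilter. -/
theorem lam_tv_congr (hl : IsUF lam) (φ : Fml) {v w : ℕ → BSet D} (h : ∀ n, lam (beq (v n) (w n)))
    (hv : lam (tv φ v)) : lam (tv φ w) := by
  let w' : ℕ → BSet D := fun n => if n < bd φ then w n else v n
  have h1 : tv φ w = tv φ w' := tv_local φ fun n hn => by simp [w', hn]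
  rw [h1]
  refine hl.mono (extR_tv φ v w') (hl.inf ?_ hv)
  have h2 := hl.iInf_finset (Finset.range (bd φ)) (fun n => beq (v n) (w n)) fun n _ => h n
  refine hl.mono ?_ h2
  refine le_iInf fun n => ?_
  by_cases hn : n < bd φ
  · simp only [w', hn, if_true]
    exact iInf₂_le n (Finset.mem_range.2 hn)
  · simp only [w', hn, if_false]
    rw [beq_refl]
    exact le_top

/-- The theorem of Łoś. -/
theorem sat_iff (hl : IsUF lam) (φ : Fml) : ∀ v : ℕ → BSet D,
    φ.Sat (E hl) (fun n => val hl (v n)) ↔ lam (tv φ v) := by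
  induction φ with
  | mem i k =>
    intro v
    exact E_val
  | eq i k =>
    intro v
    exact val_eq
  | neg φ ih =>
    intro v
    simp only [tv, Fml.Sat]
    rw [ih, hl.compl_iff]
  | and φ ψ ih1 ih2 =>
    intro v
    simp only [tv, Fml.Sat]
    rw [ih1, ih2, hl.inf_iff]
  | all φ ih =>
    intro v
    simp only [tv, Fml.Sat]
    constructor
    · intro h
      obtain ⟨x, hx⟩ := full1 (fun x => (tv φ (cons x v))ᶜ) (by
        intro x y
        refine compl_step ?_
        rw [beq_symm]
        exact ext1_tv φ v y x)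
      have h1 := h (val hl x)
      rw [← comp_cons (val hl), ih] at h1
      by_contra hc
      rw [← hl.compl_iff, compl_iInf, hx, hl.compl_iff] at hc
      exact hc h1
    · intro h x
      obtain ⟨a, rfl⟩ := exists_name x
      rw [← comp_cons (val hl), ih]
      exact hl.mono (iInf_le _ a) h

/-- The theorem of Łoś for assignments in the quotient. -/
theorem sat_iff' (hl : IsUF lam) (φ : Fml) (v : ℕ → X hl) :
    φ.Sat (E hl) v ↔ lam (tv φ fun n => (v n).rep) := by
  rw [← sat_iff hl]
  have : (fun n => val hl (v n).rep) = v := funext fun n => val_rep _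
  rw [this]

end BVM
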