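import Pool.Agent.BVM_h40.Los
import Pool.Agent.W_MP_83aea7_lc.Notions

/-!
# Predicates with truth values, bounded quantifiers over names

`TD P`: the family of `k`-ary predicates `P lam hl` on the quotients `X hl` has truth values in `D`.
All first-order predicates have truth values, with names as parameters.
-/

universe u v

namespace BVM

open IM.BSet HESR
open IM (BSet)

variable {D : Type u} [CompleteBooleanAlgebra D]

/-- A family of `k`-ary predicates on the quotients which has truth values. -/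
def TD {k : ℕ} (P : ∀ (lam : D → Prop) (hl : IsUF lam), (Fin k → X hl) → Prop) : Prop :=
  ∃ b : (Fin k → BSet D) → D, ∀ (lam : D → Prop) (hl : IsUF lam) (w : Fin k → BSet D),
    P lam hl (fun i => val hl (w i)) ↔ lam (b w)

/-- A family of `k`-ary functions on the quotients which is given by a function on the names. -/
def Tm {k : ℕ} (f : ∀ (lam : D → Prop) (hl : IsUF lam), (Fin k → X hl) → X hl) : Prop :=
  ∃ g : (Fin k → BSet D) → BSet D, ∀ (lam : D → Prop) (hl : IsUF lam) (w : Fin k → BSet D),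
    f lam hl (fun i => val hl (w i)) = val hl (g w)

theorem Tm.var {k : ℕ} (i : Fin k) : Tm (D := D) fun _ _ v => v i := ⟨fun w => w i, fun _ _ _ => rfl⟩

theorem Tm.const {k : ℕ} (a : BSet D) : Tm (k := k) fun _ hl _ => val hl a :=
  ⟨fun _ => a, fun _ _ _ => rfl⟩

namespace TD

variable {k : ℕ}

/-- The truth value. -/
noncomputable def b {P : ∀ (lam : D → Prop) (hl : IsUF lam), (Fin k → X hl) → Prop} (h : TD P) :
    (Fin k → BSet D) → D := Classical.choose h

theorem b_iff {P : ∀ (lam : D → Prop) (hl : IsUF lam), (Fin k → X hl) → Prop} (h : TD P)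
    {lam : D → Prop} {hl : IsUF lam} {w : Fin k → BSet D} :
    P lam hl (fun i => val hl (w i)) ↔ lam (h.b w) := Classical.choose_spec h lam hl w

theorem le_b {P : ∀ (lam : D → Prop) (hl : IsUF lam), (Fin k → X hl) → Prop} (h : TD P)
    {w : Fin k → BSet D} {a : D} :
    a ≤ h.b w ↔ ∀ (lam : D → Prop) (hl : IsUF lam), lam a → P lam hl (fun i => val hl (w i)) := by
  rw [le_iff_ultra]
  exact forall_congr' fun lam => forall_congr' fun hl => imp_congr_right fun _ => h.b_iff.symm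

/-- The truth value is extensional. -/
theorem ext {P : ∀ (lam : D → Prop) (hl : IsUF lam), (Fin k → X hl) → Prop} (h : TD P)
    (v w : Fin k → BSet D) : (⨅ n, beq (v n) (w n)) ⊓ h.b v ≤ h.b w := by
  rw [h.le_b]
  intro lam hl hlam
  obtain ⟨h1, h2⟩ := hl.inf_iff.1 hlam
  have h3 : (fun i => val hl (w i)) = fun i => val hl (v i) := by
    funext i
    refine (val_eq.2 (hl.mono (iInf_le _ i) h1)).symm
  rw [h3]
  exact h.b_iff.2 h2

theorem ext1 {P : ∀ (lam : D → Prop) (hl : IsUF lam), (Fin (k + 1) → X hl) → Prop} (h : TD P)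
    (w : Fin k → BSet D) : Ext1 fun x => h.b (Fin.cons x w) := by
  intro x y
  refine le_trans (inf_le_inf_right _ ?_) (h.ext (Fin.cons x w) (Fin.cons y w))
  refine le_iInf fun n => ?_
  refine Fin.cases ?_ (fun i => ?_) n
  · simp only [Fin.cons_zero]
    exact le_rfl
  · simp only [Fin.cons_succ]
    rw [beq_refl]
    exact le_top

theorem congr {P Q : ∀ (lam : D → Prop) (hl : IsUF lam), (Fin k → X hl) → Prop} (h : TD P)
    (he : ∀ lam hl v, Q lam hl v ↔ P lam hl v) : TD Q := by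
  obtain ⟨b, hb⟩ := h
  exact ⟨b, fun lam hl w => (he lam hl _).trans (hb lam hl w)⟩

theorem not {P : ∀ (lam : D → Prop) (hl : IsUF lam), (Fin k → X hl) → Prop} (h : TD P) :
    TD fun lam hl v => ¬ P lam hl v := by
  obtain ⟨b, hb⟩ := h
  exact ⟨fun w => (b w)ᶜ, fun lam hl w => (not_congr (hb lam hl w)).trans hl.compl_iff.symm⟩

theorem and {P Q : ∀ (lam : D → Prop) (hl : IsUF lam), (Fin k → X hl) → Prop} (h : TD P)
    (h' : TD Q) : TD fun lam hl v => P lam hl v ∧ Q lam hl v := by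
  obtain ⟨b, hb⟩ := h
  obtain ⟨c, hc⟩ := h'
  exact ⟨fun w => b w ⊓ c w, fun lam hl w =>
    (and_congr (hb lam hl w) (hc lam hl w)).trans hl.inf_iff.symm⟩

theorem or {P Q : ∀ (lam : D → Prop) (hl : IsUF lam), (Fin k → X hl) → Prop} (h : TD P)
    (h' : TD Q) : TD fun lam hl v => P lam hl v ∨ Q lam hl v :=
  (h.not.and h'.not).not.congr fun lam hl v => by tauto

theorem imp {P Q : ∀ (lam : D → Prop) (hl : IsUF lam), (Fin k → X hl) → Prop} (h : TD P)
    (h' : TD Q) : TD fun lam hl v => P lam hl v → Q lam hl v :=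
  (h.not.or h').congr fun lam hl v => by tauto

theorem iff {P Q : ∀ (lam : D → Prop) (hl : IsUF lam), (Fin k → X hl) → Prop} (h : TD P)
    (h' : TD Q) : TD fun lam hl v => (P lam hl v ↔ Q lam hl v) :=
  ((h.imp h').and (h'.imp h)).congr fun lam hl v => by tauto

theorem ex {P : ∀ (lam : D → Prop) (hl : IsUF lam), X hl → (Fin k → X hl) → Prop}
    (h : TD (k := k + 1) fun lam hl w => P lam hl (w 0) (fun i => w i.succ)) :
    TD fun lam hl v => ∃ x, P lam hl x v := by
  refine ⟨fun w => ⨆ x : BSet D, h.b (Fin.cons x w), fun lam hl w => ?_⟩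
  have key : ∀ x : BSet D, P lam hl (val hl x) (fun i => val hl (w i)) ↔ lam (h.b (Fin.cons x w)) := by
    intro x
    refine Iff.trans ?_ (h.b_iff (lam := lam) (hl := hl) (w := Fin.cons x w))
    simp only [Fin.cons_zero, Fin.cons_succ]
  constructor
  · rintro ⟨x, hx⟩
    obtain ⟨x, rfl⟩ := exists_name x
    exact hl.mono (le_iSup (fun x => h.b (Fin.cons x w)) x) ((key x).1 hx)
  · intro hx
    obtain ⟨x, hx⟩ := exists_of_iSup hl (h.ext1 w) hx
    exact ⟨val hl x, (key x).2 hx⟩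

theorem all {P : ∀ (lam : D → Prop) (hl : IsUF lam), X hl → (Fin k → X hl) → Prop}
    (h : TD (k := k + 1) fun lam hl w => P lam hl (w 0) (fun i => w i.succ)) :
    TD fun lam hl v => ∀ x, P lam hl x v :=
  (TD.ex (P := fun lam hl x v => ¬ P lam hl x v) h.not).not.congr fun lam hl v => by
    push Not
    rfl

/-- A predicate with a known truth value. -/
theorem tt : TD (D := D) fun _ _ (_ : Fin k → X _) => True :=
  ⟨fun _ => ⊤, fun _ hl _ => ⟨fun _ => hl.top, fun _ => trivial⟩⟩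

theorem ff : TD (D := D) fun _ _ (_ : Fin k → X _) => False :=
  ⟨fun _ => ⊥, fun _ hl _ => ⟨fun h => h.elim, fun h => (hl.bot h).elim⟩⟩

theorem lamC (a : D) : TD (D := D) fun lam _ (_ : Fin k → X _) => lam a :=
  ⟨fun _ => a, fun _ _ _ => Iff.rfl⟩

/-- The predicate of a first-order relation. -/
theorem ofFO {m : ℕ} {R : ∀ (T : Type (u + 1)) (_ : T → T → Prop), (Fin m → T) → Prop} (h : FO R)
    {f : Fin m → ∀ (lam : D → Prop) (hl : IsUF lam), (Fin k → X hl) → X hl} (hf : ∀ i, Tm (f i)) :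
    TD fun lam hl v => R (X hl) (E hl) fun i => f i lam hl v := by
  obtain ⟨φ, hφ⟩ := h
  choose g hg using hf
  refine ⟨fun w => tvH φ fun i => g i w, fun lam hl w => ?_⟩
  beta_reduce
  rw [hφ, ← los hl]
  refine iff_of_eq (congrArg _ ?_)
  funext i
  exact hg i lam hl w

theorem fo0 {R : ∀ (T : Type (u + 1)) (_ : T → T → Prop), Prop}
    (h : FO fun T E (_ : Fin 0 → T) => R T E) :
    TD (D := D) (k := k) fun _ hl _ => R (X hl) (E hl) :=
  ofFO (D := D) (f := fun i => i.elim0) h fun i => i.elim0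

theorem fo1 {R : ∀ (T : Type (u + 1)) (_ : T → T → Prop), T → Prop}
    (h : FO fun T E (v : Fin 1 → T) => R T E (v 0))
    {f : ∀ (lam : D → Prop) (hl : IsUF lam), (Fin k → X hl) → X hl} (hf : Tm f) :
    TD fun lam hl v => R (X hl) (E hl) (f lam hl v) :=
  ofFO (f := fun _ => f) h fun _ => hf

theorem fo2 {R : ∀ (T : Type (u + 1)) (_ : T → T → Prop), T → T → Prop}
    (h : FO fun T E (v : Fin 2 → T) => R T E (v 0) (v 1))
    {f g : ∀ (lam : D → Prop) (hl : IsUF lam), (Fin k → X hl) → X hl} (hf : Tm f) (hg : Tm g) :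
    TD fun lam hl v => R (X hl) (E hl) (f lam hl v) (g lam hl v) :=
  ofFO (f := fun i lam hl v => (![f lam hl v, g lam hl v] : Fin 2 → X hl) i) h fun i => by
    fin_cases i
    · exact hf
    · exact hg

theorem fo3 {R : ∀ (T : Type (u + 1)) (_ : T → T → Prop), T → T → T → Prop}
    (h : FO fun T E (v : Fin 3 → T) => R T E (v 0) (v 1) (v 2))
    {f g l : ∀ (lam : D → Prop) (hl : IsUF lam), (Fin k → X hl) → X hl} (hf : Tm f) (hg : Tm g)
    (hl' : Tm l) :
    TD fun lam hl v => R (X hl) (E hl) (f lam hl v) (g lam hl v) (l lam hl v) :=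
  ofFO (f := fun i lam hl v => (![f lam hl v, g lam hl v, l lam hl v] : Fin 3 → X hl) i) h
    fun i => by
      fin_cases i
      · exact hf
      · exact hg
      · exact hl'

theorem fo4 {R : ∀ (T : Type (u + 1)) (_ : T → T → Prop), T → T → T → T → Prop}
    (h : FO fun T E (v : Fin 4 → T) => R T E (v 0) (v 1) (v 2) (v 3))
    {f g l q : ∀ (lam : D → Prop) (hl : IsUF lam), (Fin k → X hl) → X hl} (hf : Tm f) (hg : Tm g)
    (hl' : Tm l) (hq : Tm q) :
    TD fun lam hl v => R (X hl) (E hl) (f lam hl v) (g lam hl v) (l lam hl v) (q lam hl v) :=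
  ofFO (f := fun i lam hl v =>
    (![f lam hl v, g lam hl v, l lam hl v, q lam hl v] : Fin 4 → X hl) i) h
    fun i => by
      fin_cases i
      · exact hf
      · exact hg
      · exact hl'
      · exact hq

theorem fo5 {R : ∀ (T : Type (u + 1)) (_ : T → T → Prop), T → T → T → T → T → Prop}
    (h : FO fun T E (v : Fin 5 → T) => R T E (v 0) (v 1) (v 2) (v 3) (v 4))
    {f g l q r : ∀ (lam : D → Prop) (hl : IsUF lam), (Fin k → X hl) → X hl} (hf : Tm f)
    (hg : Tm g) (hl' : Tm l) (hq : Tm q) (hr : Tm r) :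
    TD fun lam hl v =>
      R (X hl) (E hl) (f lam hl v) (g lam hl v) (l lam hl v) (q lam hl v) (r lam hl v) :=
  ofFO (f := fun i lam hl v =>
    (![f lam hl v, g lam hl v, l lam hl v, q lam hl v, r lam hl v] : Fin 5 → X hl) i) h
    fun i => by
      fin_cases i
      · exact hf
      · exact hg
      · exact hl'
      · exact hq
      · exact hr

theorem mem {f g : ∀ (lam : D → Prop) (hl : IsUF lam), (Fin k → X hl) → X hl} (hf : Tm f)
    (hg : Tm g) : TD fun lam hl v => E hl (f lam hl v) (g lam hl v) := by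
  obtain ⟨f', hf⟩ := hf
  obtain ⟨g', hg⟩ := hg
  exact ⟨fun w => bmem (f' w) (g' w), fun lam hl w => by beta_reduce; rw [hf, hg, E_val]⟩

theorem eq {f g : ∀ (lam : D → Prop) (hl : IsUF lam), (Fin k → X hl) → X hl} (hf : Tm f)
    (hg : Tm g) : TD fun lam hl v => f lam hl v = g lam hl v := by
  obtain ⟨f', hf⟩ := hf
  obtain ⟨g', hg⟩ := hg
  exact ⟨fun w => beq (f' w) (g' w), fun lam hl w => by beta_reduce; rw [hf, hg, val_eq]⟩

/-- Substitution. -/
theorem subst {P : ∀ (lam : D → Prop) (hl : IsUF lam), X hl → (Fin k → X hl) → Prop}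
    (h : TD (k := k + 1) fun lam hl w => P lam hl (w 0) (fun i => w i.succ))
    {f : ∀ (lam : D → Prop) (hl : IsUF lam), (Fin k → X hl) → X hl} (hf : Tm f) :
    TD fun lam hl v => P lam hl (f lam hl v) v := by
  obtain ⟨f', hf⟩ := hf
  refine ⟨fun w => h.b (Fin.cons (f' w) w), fun lam hl w => ?_⟩
  refine Iff.trans ?_ (h.b_iff (lam := lam) (hl := hl) (w := Fin.cons (f' w) w))
  beta_reduce
  rw [hf]
  simp only [Fin.cons_zero, Fin.cons_succ]

section notions

variable {f g l : ∀ (lam : D → Prop) (hl : IsUF lam), (Fin k → X hl) → X hl}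

theorem sub (hf : Tm f) (hg : Tm g) : TD fun lam hl v => Sub (E hl) (f lam hl v) (g lam hl v) :=
  fo2 (R := fun _ E a b => Sub E a b) (Sub.fo 0 1) hf hg

theorem isEmp (hf : Tm f) : TD fun lam hl v => IsEmp (E hl) (f lam hl v) :=
  fo1 (R := fun _ E a => IsEmp E a) (IsEmp.fo 0) hf

theorem isUPair (hf : Tm f) (hg : Tm g) (hl' : Tm l) :
    TD fun lam hl v => IsUPair (E hl) (f lam hl v) (g lam hl v) (l lam hl v) :=
  fo3 (R := fun _ E a b c => IsUPair E a b c) (IsUPair.fo 0 1 2) hf hg hl'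

theorem isPair (hf : Tm f) (hg : Tm g) (hl' : Tm l) :
    TD fun lam hl v => IsPair (E hl) (f lam hl v) (g lam hl v) (l lam hl v) :=
  fo3 (R := fun _ E a b c => IsPair E a b c) (IsPair.fo 0 1 2) hf hg hl'

theorem isSucc (hf : Tm f) (hg : Tm g) :
    TD fun lam hl v => IsSucc (E hl) (f lam hl v) (g lam hl v) :=
  fo2 (R := fun _ E a b => IsSucc E a b) (IsSucc.fo 0 1) hf hg

theorem isTr (hf : Tm f) : TD fun lam hl v => IsTr (E hl) (f lam hl v) :=
  fo1 (R := fun _ E a => IsTr E a) (IsTr.fo 0) hf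

theorem isOrd (hf : Tm f) : TD fun lam hl v => IsOrd (E hl) (f lam hl v) :=
  fo1 (R := fun _ E a => IsOrd E a) (IsOrd.fo 0) hf

theorem isZS (hf : Tm f) : TD fun lam hl v => IsZS (E hl) (f lam hl v) :=
  fo1 (R := fun _ E a => IsZS E a) (IsZS.fo 0) hf

theorem isNat (hf : Tm f) : TD fun lam hl v => IsNat (E hl) (f lam hl v) :=
  fo1 (R := fun _ E a => IsNat E a) (IsNat.fo 0) hf

theorem isOmega (hf : Tm f) : TD fun lam hl v => IsOmega (E hl) (f lam hl v) :=
  fo1 (R := fun _ E a => IsOmega E a) (IsOmega.fo 0) hf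

theorem app (hf : Tm f) (hg : Tm g) (hl' : Tm l) :
    TD fun lam hl v => App (E hl) (f lam hl v) (g lam hl v) (l lam hl v) :=
  fo3 (R := fun _ E a b c => App E a b c) (App.fo 0 1 2) hf hg hl'

theorem isFun (hf : Tm f) (hg : Tm g) :
    TD fun lam hl v => IsFun (E hl) (f lam hl v) (g lam hl v) :=
  fo2 (R := fun _ E a b => IsFun E a b) (IsFun.fo 0 1) hf hg

theorem maps (hf : Tm f) (hg : Tm g) (hl' : Tm l) :
    TD fun lam hl v => Maps (E hl) (f lam hl v) (g lam hl v) (l lam hl v) :=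
  fo3 (R := fun _ E a b c => Maps E a b c) (Maps.fo 0 1 2) hf hg hl'

end notions

end TD

/-! ### Unary predicates and bounded quantifiers -/

/-- Unary predicates with truth values. -/
abbrev TD1 (P : ∀ (lam : D → Prop) (hl : IsUF lam), X hl → Prop) : Prop :=
  TD (k := 1) fun lam hl v => P lam hl (v 0)

/-- Nullary predicates with truth values. -/
abbrev TD0 (P : ∀ (lam : D → Prop), IsUF lam → Prop) : Prop :=
  TD (k := 0) fun lam hl _ => P lam hl

/-- The truth value of a nullary predicate. -/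
noncomputable def TD.b0 {P : ∀ (lam : D → Prop), IsUF lam → Prop} (h : TD0 P) : D := h.b Fin.elim0

theorem TD.b0_iff {P : ∀ (lam : D → Prop), IsUF lam → Prop} (h : TD0 P) {lam : D → Prop}
    {hl : IsUF lam} : P lam hl ↔ lam (TD.b0 h) := h.b_iff (w := Fin.elim0)

theorem TD.le_b0 {P : ∀ (lam : D → Prop), IsUF lam → Prop} (h : TD0 P) {a : D} :
    a ≤ TD.b0 h ↔ ∀ (lam : D → Prop) (hl : IsUF lam), lam a → P lam hl := h.le_b (w := Fin.elim0)

/-- The truth value of a unary predicate. -/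
noncomputable def TD.b1 {P : ∀ (lam : D → Prop) (hl : IsUF lam), X hl → Prop} (h : TD1 P)
    (x : BSet D) : D := h.b fun _ => x

theorem TD.b1_iff {P : ∀ (lam : D → Prop) (hl : IsUF lam), X hl → Prop} (h : TD1 P)
    {lam : D → Prop} {hl : IsUF lam} {x : BSet D} : P lam hl (val hl x) ↔ lam (TD.b1 h x) :=
  h.b_iff (w := fun _ => x)

theorem TD.le_b1 {P : ∀ (lam : D → Prop) (hl : IsUF lam), X hl → Prop} (h : TD1 P)
    {x : BSet D} {a : D} : a ≤ TD.b1 h x ↔
      ∀ (lam : D → Prop) (hl : IsUF lam), lam a → P lam hl (val hl x) :=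
  h.le_b (w := fun _ => x)

theorem TD.b1_ext {P : ∀ (lam : D → Prop) (hl : IsUF lam), X hl → Prop} (h : TD1 P) :
    Ext1 (TD.b1 h) := by
  intro x y
  rw [TD.le_b1]
  intro lam hl hlam
  obtain ⟨h1, h2⟩ := hl.inf_iff.1 hlam
  rw [← val_eq.2 h1]
  exact (TD.b1_iff h).2 h2

/-- Bounded universal quantifier: in a quotient. -/
theorem forall_mem_iff {P : ∀ (lam : D → Prop) (hl : IsUF lam), X hl → Prop} (h : TD1 P)
    {lam : D → Prop} {hl : IsUF lam} {x : BSet D} :
    (∀ z, E hl z (val hl x) → P lam hl z) ↔ lam (⨅ i : x.ty, (x.wt i)ᶜ ⊔ TD.b1 h (x.fn i)) := by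
  constructor
  · intro h1
    by_contra hc
    rw [← hl.compl_iff] at hc
    have he : (⨅ i : x.ty, (x.wt i)ᶜ ⊔ TD.b1 h (x.fn i))ᶜ =
        ⨆ i : x.ty, x.wt i ⊓ (TD.b1 h (x.fn i))ᶜ := by
      rw [compl_iInf]
      refine iSup_congr fun a => ?_
      rw [compl_sup, compl_compl]
    rw [he] at hc
    obtain ⟨z, hz1, hz2⟩ := exists_bmem hl x (IM.bf_ext1_compl (TD.b1_ext h)) hc
    exact hl.compl_iff.1 hz2 ((TD.b1_iff h).1 (h1 _ (E_val.2 hz1)))
  · intro h1 z hz
    obtain ⟨z, rfl⟩ := exists_name z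
    rw [TD.b1_iff h]
    refine hl.mono ?_ (hl.inf h1 (E_val.1 hz))
    rw [bmem, inf_iSup_eq]
    refine iSup_le fun i => ?_
    have h2 : (⨅ i : x.ty, (x.wt i)ᶜ ⊔ TD.b1 h (x.fn i)) ⊓ x.wt i ≤ TD.b1 h (x.fn i) := by
      rw [← le_compl_sup_iff]
      exact iInf_le _ i
    refine le_trans ?_ (TD.b1_ext h (x.fn i) z)
    refine le_inf ?_ ?_
    · rw [beq_symm]
      exact inf_le_right.trans inf_le_right
    · exact (le_inf inf_le_left (inf_le_right.trans inf_le_left)).trans h2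

/-- Bounded existential quantifier: in a quotient. -/
theorem exists_mem_iff {P : ∀ (lam : D → Prop) (hl : IsUF lam), X hl → Prop} (h : TD1 P)
    {lam : D → Prop} {hl : IsUF lam} {x : BSet D} :
    (∃ z, E hl z (val hl x) ∧ P lam hl z) ↔ lam (⨆ i : x.ty, x.wt i ⊓ TD.b1 h (x.fn i)) := by
  constructor
  · rintro ⟨z, hz, hP⟩
    obtain ⟨z, rfl⟩ := exists_name z
    have h1 := hl.inf (E_val.1 hz) ((TD.b1_iff h).1 hP)
    rw [iSup_wt_eq x (TD.b1_ext h)]
    exact hl.mono (le_iSup (fun z => bmem z x ⊓ TD.b1 h z) z) h1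
  · intro h1
    obtain ⟨z, hz1, hz2⟩ := exists_bmem hl x (TD.b1_ext h) h1
    exact ⟨val hl z, E_val.2 hz1, (TD.b1_iff h).2 hz2⟩

/-- Bounded universal quantifier: in all quotients. -/
theorem forall_mem {P : ∀ (lam : D → Prop) (hl : IsUF lam), X hl → Prop} (h : TD1 P)
    {x : BSet D} {a : D}
    (h1 : ∀ (i : x.ty) (lam : D → Prop) (hl : IsUF lam), lam a → lam (x.wt i) →
      P lam hl (val hl (x.fn i))) {lam : D → Prop} {hl : IsUF lam} (hlam : lam a) :
    ∀ z, E hl z (val hl x) → P lam hl z := by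
  rw [forall_mem_iff h]
  refine hl.mono ?_ hlam
  refine le_iInf fun i => ?_
  rw [le_compl_sup_iff, TD.le_b1]
  intro lam hl hlam
  obtain ⟨h2, h3⟩ := hl.inf_iff.1 hlam
  exact h1 i lam hl h2 h3

/-- Bounded universal quantifier over a name with explicit data. -/
theorem forall_mk {P : ∀ (lam : D → Prop) (hl : IsUF lam), X hl → Prop} (h : TD1 P)
    {ι : Type u} {f : ι → BSet D} {w : ι → D} {a : D}
    (h1 : ∀ (i : ι) (lam : D → Prop) (hl : IsUF lam), lam a → lam (w i) →
      P lam hl (val hl (f i))) {lam : D → Prop} {hl : IsUF lam} (hlam : lam a) :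
    ∀ z, E hl z (val hl (mk ι f w)) → P lam hl z :=
  forall_mem h (x := mk ι f w) h1 hlam

theorem forall_nm {P : ∀ (lam : D → Prop) (hl : IsUF lam), X hl → Prop} (h : TD1 P)
    {ι : Type u} {f : ι → BSet D} {a : D}
    (h1 : ∀ (i : ι) (lam : D → Prop) (hl : IsUF lam), lam a → P lam hl (val hl (f i)))
    {lam : D → Prop} {hl : IsUF lam} (hlam : lam a) :
    ∀ z, E hl z (val hl (nm f)) → P lam hl z :=
  forall_mk (w := fun _ => ⊤) h (fun i lam hl h2 _ => h1 i lam hl h2) hlam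

theorem exists_mk_iff {P : ∀ (lam : D → Prop) (hl : IsUF lam), X hl → Prop} (h : TD1 P)
    {lam : D → Prop} {hl : IsUF lam} {ι : Type u} {f : ι → BSet D} {w : ι → D} :
    (∃ z, E hl z (val hl (mk ι f w)) ∧ P lam hl z) ↔ lam (⨆ i, w i ⊓ TD.b1 h (f i)) :=
  exists_mem_iff h (x := mk ι f w)

theorem exists_nm_iff {P : ∀ (lam : D → Prop) (hl : IsUF lam), X hl → Prop} (h : TD1 P)
    {lam : D → Prop} {hl : IsUF lam} {ι : Type u} {f : ι → BSet D} :
    (∃ z, E hl z (val hl (nm f)) ∧ P lam hl z) ↔ lam (⨆ i, TD.b1 h (f i)) := by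
  rw [nm, exists_mk_iff h]
  simp only [top_inf_eq]

/-- A supremum in all ultrafilters below `a`. -/
theorem le_iSup_iff_ultra {ι : Type*} {a : D} {c : ι → D} : a ≤ (⨆ i, c i) ↔
    ∀ (lam : D → Prop), IsUF lam → lam a → lam (⨆ i, c i) := le_iff_ultra

theorem eq_iff_ultra {a b : D} : a = b ↔ ∀ lam : D → Prop, IsUF lam → (lam a ↔ lam b) := by
  constructor
  · rintro rfl lam _
    exact Iff.rfl
  · intro h
    exact le_antisymm (le_iff_ultra.2 fun lam hl => (h lam hl).1)
      (le_iff_ultra.2 fun lam hl => (h lam hl).2)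

theorem eq_bot_iff_ultra {a : D} : a = ⊥ ↔ ∀ lam : D → Prop, IsUF lam → ¬ lam a := by
  constructor
  · rintro rfl lam hl
    exact hl.bot
  · intro h
    by_contra hc
    obtain ⟨lam, hl, ha⟩ := exists_isUF hc
    exact h lam hl ha

end BVM
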