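import Pool.Agent.BVM_h40.Quot
import Pool.Agent.W_MP_0bf392_lc.BFrame

/-!
# The quotient of the Boolean-valued sets by any ultrafilter is a model of ZFC
-/

universe u v

namespace BVM

open IM IM.BSet

variable {D : Type u} [CompleteBooleanAlgebra D] {lam : D → Prop} {hl : IsUF lam}

/-! ### Tools -/

/-- A witness for an existential statement which is true modulo the ultrafilter. -/
theorem exists_of_iSup (hl : IsUF lam) {R : BSet D → D} (hR : Ext1 R) (h : lam (⨆ x, R x)) :
    ∃ x, lam (R x) := by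
  obtain ⟨x, hx⟩ := full1 R hR
  exact ⟨x, hx ▸ h⟩

/-- A bounded existential statement. -/
theorem iSup_wt_eq (x : BSet D) {R : BSet D → D} (hR : Ext1 R) :
    (⨆ a : x.ty, x.wt a ⊓ R (x.fn a)) = ⨆ z, bmem z x ⊓ R z := by
  refine le_antisymm (bf_iSup_wt_le x) (iSup_le fun z => ?_)
  rw [bf_bmem_inf z x hR]
  exact iSup_mono fun a => inf_le_left

/-- A witness for a bounded existential statement which is true modulo the ultrafilter. -/
theorem exists_bmem (hl : IsUF lam) (x : BSet D) {R : BSet D → D} (hR : Ext1 R)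
    (h : lam (⨆ a : x.ty, x.wt a ⊓ R (x.fn a))) : ∃ z : BSet D, lam (bmem z x) ∧ lam (R z) := by
  rw [iSup_wt_eq x hR] at h
  obtain ⟨z, hz⟩ := exists_of_iSup hl (bf_ext1_bmem_inf x hR) h
  exact ⟨z, hl.inf_iff.1 hz⟩

theorem ext1_inf {R S : BSet D → D} (hR : Ext1 R) (hS : Ext1 S) : Ext1 fun z => R z ⊓ S z := by
  intro z z'
  refine le_inf ?_ ?_
  · exact (inf_le_inf_left _ inf_le_left).trans (hR z z')
  · exact (inf_le_inf_left _ inf_le_right).trans (hS z z')

/-- Membership in the quotient is decided by the membership truth value. -/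
theorem E_iff_of_bmem {y : BSet D} {R : BSet D → D} (h : ∀ z, bmem z y = R z) (z : BSet D) :
    E hl (val hl z) (val hl y) ↔ lam (R z) := by
  rw [E_val, h]

/-- The name with elements `f i`, all with weight `⊤`. -/
def nm {ι : Type u} (f : ι → BSet D) : BSet D := mk ι f fun _ => ⊤

theorem bmem_nm {ι : Type u} (f : ι → BSet D) (z : BSet D) : bmem z (nm f) = ⨆ i, beq z (f i) := by
  apply le_antisymm
  · exact iSup_mono fun i => inf_le_right
  · exact iSup_mono fun i => le_inf le_top le_rfl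

/-! ### The axioms -/

theorem ext_aux (x y : BSet D) (h : lam (⨅ a : x.ty, (x.wt a)ᶜ ⊔ bmem (x.fn a) y)ᶜ) :
    ∃ z : X hl, E hl z (val hl x) ∧ ¬ E hl z (val hl y) := by
  have he : (⨅ a : x.ty, (x.wt a)ᶜ ⊔ bmem (x.fn a) y)ᶜ =
      ⨆ a : x.ty, x.wt a ⊓ (bmem (x.fn a) y)ᶜ := by
    rw [compl_iInf]
    refine iSup_congr fun a => ?_
    rw [compl_sup, compl_compl]
  rw [he] at h
  obtain ⟨z, hz1, hz2⟩ := exists_bmem hl x (bf_ext1_compl (bf_ext1_bmem_right y)) h
  exact ⟨val hl z, E_val.2 hz1, fun h' => hl.compl_iff.1 hz2 (E_val.1 h')⟩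

theorem ax_ext (x y : X hl) (h : ∀ z, E hl z x ↔ E hl z y) : x = y := by
  obtain ⟨x, rfl⟩ := exists_name x
  obtain ⟨y, rfl⟩ := exists_name y
  by_contra hne
  rw [val_eq, ← hl.compl_iff, beq_def, compl_inf] at hne
  rcases hl.sup_iff.1 hne with h3 | h3
  · obtain ⟨z, hz1, hz2⟩ := ext_aux (hl := hl) x y h3
    exact hz2 ((h z).1 hz1)
  · obtain ⟨z, hz1, hz2⟩ := ext_aux (hl := hl) y x h3
    exact hz2 ((h z).2 hz1)

/-- The truth value of `x` and `a` have a common element. -/
def meets (x a : BSet D) : D := ⨆ y : BSet D, bmem y x ⊓ bmem y a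

theorem ext1_meets (a : BSet D) : Ext1 fun x => meets x a := by
  intro x x'
  simp only [meets, inf_iSup_eq]
  refine iSup_mono fun y => le_inf ?_ (inf_le_right.trans inf_le_right)
  exact (inf_le_inf_left _ inf_le_left).trans (bmem_congr_right _ _ _)

theorem ax_foundation (a : X hl) (h : ∃ x, E hl x a) :
    ∃ x, E hl x a ∧ ∀ y, E hl y x → ¬ E hl y a := by
  obtain ⟨a, rfl⟩ := exists_name a
  -- the truth value of the conclusion
  set c : D := ⨆ x : BSet D, bmem x a ⊓ (meets x a)ᶜ with hc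
  have hR : Ext1 fun x => bmem x a ⊓ (meets x a)ᶜ :=
    bf_ext1_bmem_inf a (bf_ext1_compl (ext1_meets a))
  have key : ∀ x : BSet D, bmem x a ≤ c := by
    intro x
    induction x with
    | mk α A B ih =>
      have h1 : meets (mk α A B) a ≤ c := by
        rw [meets]
        refine iSup_le fun y => ?_
        rw [bmem, iSup_inf_eq]
        refine iSup_le fun i => ?_
        refine le_trans ?_ (ih i)
        refine le_trans (le_inf ?_ inf_le_right) (bmem_congr_left y (A i) a)
        exact inf_le_left.trans inf_le_right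
      have h2 : bmem (mk α A B) a ≤ c ⊔ (bmem (mk α A B) a ⊓ (meets (mk α A B) a)ᶜ) := by
        calc bmem (mk α A B) a
            = (bmem (mk α A B) a ⊓ meets (mk α A B) a) ⊔
              (bmem (mk α A B) a ⊓ (meets (mk α A B) a)ᶜ) := by
              rw [← inf_sup_left, sup_compl_eq_top, inf_top_eq]
          _ ≤ _ := sup_le_sup_right (inf_le_right.trans h1) _
      exact h2.trans (sup_le le_rfl (le_iSup (fun x => bmem x a ⊓ (meets x a)ᶜ) (mk α A B)))
  obtain ⟨x, hx⟩ := h
  obtain ⟨x, rfl⟩ := exists_name x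
  have h1 : lam c := hl.mono (key x) (E_val.1 hx)
  obtain ⟨z, hz⟩ := exists_of_iSup hl hR h1
  obtain ⟨hz1, hz2⟩ := hl.inf_iff.1 hz
  refine ⟨val hl z, E_val.2 hz1, fun y hy hya => ?_⟩
  obtain ⟨y, rfl⟩ := exists_name y
  refine hl.compl_iff.1 hz2 (hl.mono ?_ (hl.inf (E_val.1 hy) (E_val.1 hya)))
  exact le_iSup (fun y => bmem y z ⊓ bmem y a) y

theorem ax_pairing (a b : X hl) : ∃ c, ∀ x, E hl x c ↔ x = a ∨ x = b := by
  obtain ⟨a, rfl⟩ := exists_name a
  obtain ⟨b, rfl⟩ := exists_name b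
  refine ⟨val hl (nm fun i : ULift.{u} Bool => if i.down then a else b), fun x => ?_⟩
  obtain ⟨x, rfl⟩ := exists_name x
  rw [E_val, bmem_nm, val_eq, val_eq, ← hl.sup_iff]
  have : (⨆ i : ULift.{u} Bool, beq x (if i.down then a else b)) = beq x a ⊔ beq x b := by
    apply le_antisymm
    · refine iSup_le fun i => ?_
      rcases i with ⟨_ | _⟩
      · simp
      · simp
    · refine sup_le (le_iSup_of_le (ULift.up true) ?_) (le_iSup_of_le (ULift.up false) ?_)
      · simp
      · simp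
  rw [this]

theorem ax_union (a : X hl) : ∃ b, ∀ x, E hl x b ↔ ∃ y, E hl y a ∧ E hl x y := by
  obtain ⟨a, rfl⟩ := exists_name a
  have hext : ∀ x : BSet D, Ext1 fun y => bmem x y := fun x y y' => bmem_congr_right x y y'
  refine ⟨val hl (mk (Σ i : a.ty, (a.fn i).ty) (fun p => (a.fn p.1).fn p.2)
    fun p => a.wt p.1 ⊓ (a.fn p.1).wt p.2), fun x => ?_⟩
  obtain ⟨x, rfl⟩ := exists_name x
  have h1 : bmem x (mk (Σ i : a.ty, (a.fn i).ty) (fun p => (a.fn p.1).fn p.2)
      fun p => a.wt p.1 ⊓ (a.fn p.1).wt p.2) = ⨆ i : a.ty, a.wt i ⊓ bmem x (a.fn i) := by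
    simp only [bmem, fn, wt, ty]
    rw [iSup_sigma]
    refine iSup_congr fun i => ?_
    rw [inf_iSup_eq]
    exact iSup_congr fun k => inf_assoc _ _ _
  rw [E_val, h1]
  constructor
  · intro h
    obtain ⟨z, hz1, hz2⟩ := exists_bmem hl a (hext x) h
    exact ⟨val hl z, E_val.2 hz1, E_val.2 hz2⟩
  · rintro ⟨y, hy, hxy⟩
    obtain ⟨y, rfl⟩ := exists_name y
    rw [iSup_wt_eq a (hext x)]
    exact hl.mono (le_iSup (fun z => bmem z a ⊓ bmem x z) y) (hl.inf (E_val.1 hy) (E_val.1 hxy))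

/-- The truth value of `x ⊆ a`. -/
def bsub (x a : BSet D) : D := ⨅ i : x.ty, (x.wt i)ᶜ ⊔ bmem (x.fn i) a

theorem bsub_iff (x a : BSet D) : lam (bsub x a) ↔ ∀ z, E hl z (val hl x) → E hl z (val hl a) := by
  constructor
  · intro h z hz
    obtain ⟨z, rfl⟩ := exists_name z
    rw [E_val] at hz ⊢
    refine hl.mono ?_ (hl.inf h hz)
    rw [bmem, inf_iSup_eq]
    refine iSup_le fun i => ?_
    have h1 : bsub x a ⊓ x.wt i ≤ bmem (x.fn i) a := by
      rw [← le_compl_sup_iff]
      exact iInf_le _ i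
    have h2 := bmem_congr_left (x.fn i) z a
    rw [beq_symm] at h2
    refine le_trans (le_inf (inf_le_right.trans inf_le_right) ?_) h2
    exact (inf_le_inf_left _ inf_le_left).trans h1
  · intro h
    by_contra hc
    rw [← hl.compl_iff] at hc
    obtain ⟨z, hz1, hz2⟩ := ext_aux (hl := hl) x a hc
    exact hz2 (h z hz1)

theorem ax_powerset (a : X hl) : ∃ b, ∀ x, E hl x b ↔ ∀ y, E hl y x → E hl y a := by
  obtain ⟨a, rfl⟩ := exists_name a
  have hsub : ∀ x x' : BSet D, beq x x' ⊓ bsub x a ≤ bsub x' a := by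
    intro x x'
    refine le_iInf fun i => ?_
    rw [le_compl_sup_iff]
    have h1 : beq x x' ⊓ x'.wt i ≤ bmem (x'.fn i) x := by
      rw [beq_symm]
      exact (inf_le_inf_left _ (wt_le_bmem x' i)).trans (bmem_congr_right _ _ _)
    have h2 : bsub x a ⊓ bmem (x'.fn i) x ≤ bmem (x'.fn i) a := by
      rw [bmem, inf_iSup_eq]
      refine iSup_le fun k => ?_
      have h3 : bsub x a ⊓ x.wt k ≤ bmem (x.fn k) a := by
        rw [← le_compl_sup_iff]
        exact iInf_le _ k
      have h4 := bmem_congr_left (x.fn k) (x'.fn i) a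
      rw [beq_symm] at h4
      refine le_trans (le_inf (inf_le_right.trans inf_le_right) ?_) h4
      exact (inf_le_inf_left _ inf_le_left).trans h3
    refine le_trans (le_inf (inf_le_left.trans inf_le_right) ?_) h2
    exact le_trans (inf_le_inf_right _ inf_le_left) h1
  refine ⟨val hl (mk (a.ty → D) (fun f => mk a.ty a.fn f)
    fun f => bsub (mk a.ty a.fn f) a), fun x => ?_⟩
  obtain ⟨x, rfl⟩ := exists_name x
  rw [← bsub_iff, E_val]
  have h1 : bmem x (mk (a.ty → D) (fun f => mk a.ty a.fn f) fun f => bsub (mk a.ty a.fn f) a) =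
      bsub x a := by
    apply le_antisymm
    · rw [bmem]
      refine iSup_le fun f => ?_
      change bsub (mk a.ty a.fn f) a ⊓ beq x (mk a.ty a.fn f) ≤ _
      rw [inf_comm, beq_symm]
      exact hsub _ _
    · have h2 := bf_subset_le_beq x a
      refine le_trans ?_ (le_iSup (fun f : a.ty → D => bsub (mk a.ty a.fn f) a ⊓
        beq x (mk a.ty a.fn f)) fun d => bmem (a.fn d) x)
      refine le_inf ?_ h2
      refine le_trans (le_inf h2 le_rfl) ?_
      exact hsub _ _
  rw [h1]

/-- The name of a natural number. -/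
def natB : ℕ → BSet D
  | 0 => mk PEmpty (fun i => i.elim) (fun i => i.elim)
  | n + 1 => mk (Option (natB n : BSet D).ty)
      (fun o => o.elim (natB n) (natB n : BSet D).fn)
      (fun o => o.elim ⊤ (natB n : BSet D).wt)

theorem bmem_natB_zero (x : BSet D) : bmem x (natB 0 : BSet D) = ⊥ := by
  have h : bmem x (natB 0 : BSet D) = ⨆ i : PEmpty.{u + 1}, (i.elim : D) := iSup_congr fun i => i.elim
  rw [h]
  exact iSup_eq_bot.2 fun i => i.elim

theorem bmem_natB_succ (x : BSet D) (n : ℕ) :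
    bmem x (natB (n + 1) : BSet D) = beq x (natB n) ⊔ bmem x (natB n) := by
  have h : bmem x (natB (n + 1) : BSet D) = ⨆ o : Option (natB n : BSet D).ty,
      (o.elim ⊤ (natB n : BSet D).wt) ⊓ beq x (o.elim (natB n) (natB n : BSet D).fn) := rfl
  rw [h, iSup_option]
  simp only [Option.elim_none, Option.elim_some, top_inf_eq]
  rfl

theorem ax_infinity : ∃ a, (∃ e, E hl e a ∧ ∀ x, ¬ E hl x e) ∧
    ∀ x, E hl x a → ∃ y, E hl y a ∧ ∀ z, E hl z y ↔ E hl z x ∨ z = x := by
  refine ⟨val hl (nm fun n : ULift.{u} ℕ => natB n.down), ⟨val hl (natB 0), ?_, ?_⟩, ?_⟩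
  · rw [E_val, bmem_nm]
    refine hl.mono (le_iSup (fun i : ULift.{u} ℕ => beq (natB 0) (natB i.down)) (ULift.up 0)) ?_
    rw [beq_refl]
    exact hl.top
  · intro x hx
    obtain ⟨x, rfl⟩ := exists_name x
    rw [E_val, bmem_natB_zero] at hx
    exact hl.bot hx
  · intro x hx
    obtain ⟨x, rfl⟩ := exists_name x
    -- the successor of `x`
    let s : BSet D := mk (Option x.ty) (fun o => o.elim x x.fn) (fun o => o.elim ⊤ x.wt)
    have hs : ∀ z, bmem z s = beq z x ⊔ bmem z x := by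
      intro z
      have h : bmem z s = ⨆ o : Option x.ty, (o.elim ⊤ x.wt) ⊓ beq z (o.elim x x.fn) := rfl
      rw [h, iSup_option]
      simp only [Option.elim_none, Option.elim_some, top_inf_eq]
      rfl
    refine ⟨val hl s, ?_, fun z => ?_⟩
    · rw [E_val, bmem_nm] at hx ⊢
      refine hl.mono (iSup_le fun n => le_iSup_of_le (ULift.up (n.down + 1)) ?_) hx
      rw [le_beq_iff]
      refine ⟨fun z => ?_, fun z => ?_⟩
      · rw [hs, bmem_natB_succ, inf_sup_left]
        refine sup_le_sup ?_ (bmem_congr_right _ _ _)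
        rw [inf_comm]
        exact beq_trans _ _ _
      · rw [hs, bmem_natB_succ, inf_sup_left]
        refine sup_le_sup ?_ ?_
        · rw [inf_comm, beq_symm x]
          exact beq_trans _ _ _
        · rw [beq_symm x]
          exact bmem_congr_right _ _ _
    · obtain ⟨z, rfl⟩ := exists_name z
      rw [E_val, E_val, val_eq, hs, hl.sup_iff, or_comm]

theorem ax_separation (φ : Fml) (v : ℕ → X hl) (a : X hl) :
    ∃ b, ∀ x, E hl x b ↔ E hl x a ∧ φ.Sat (E hl) (cons x v) := by
  obtain ⟨a, rfl⟩ := exists_name a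
  have hR := ext1_tv φ fun n => (v n).rep
  refine ⟨val hl (mk a.ty a.fn fun i => a.wt i ⊓ tv φ (cons (a.fn i) fun n => (v n).rep)),
    fun x => ?_⟩
  obtain ⟨x, rfl⟩ := exists_name x
  have hv : v = fun n => val hl (v n).rep := funext fun n => (val_rep _).symm
  have hs : φ.Sat (E hl) (cons (val hl x) v) ↔ lam (tv φ (cons x fun n => (v n).rep)) := by
    conv_lhs => rw [hv, ← comp_cons (val hl)]
    exact sat_iff hl φ _
  rw [hs, E_val, E_val, ← hl.inf_iff, bf_bmem_inf x a hR]
  rfl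

theorem ax_replacement (φ : Fml) (v : ℕ → X hl) (a : X hl)
    (h : ∀ x, E hl x a → ∃! y, φ.Sat (E hl) (cons x (cons y v))) :
    ∃ b, ∀ y, E hl y b ↔ ∃ x, E hl x a ∧ φ.Sat (E hl) (cons x (cons y v)) := by
  obtain ⟨a, rfl⟩ := exists_name a
  set w : ℕ → BSet D := fun n => (v n).rep with hw
  have hv : v = fun n => val hl (w n) := funext fun n => (val_rep _).symm
  have hs : ∀ x y : BSet D, φ.Sat (E hl) (cons (val hl x) (cons (val hl y) v)) ↔
      lam (tv φ (cons x (cons y w))) := by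
    intro x y
    conv_lhs => rw [hv, ← comp_cons (val hl), ← comp_cons (val hl)]
    exact sat_iff hl φ _
  have hR2 : ∀ x : BSet D, Ext1 fun y => tv φ (cons x (cons y w)) := fun x =>
    bf_extR_cons2 (R := tv φ) (extR_tv φ) x w
  have hR1 : ∀ y : BSet D, Ext1 fun x => tv φ (cons x (cons y w)) := fun y => ext1_tv φ _
  choose W hW using fun i : a.ty => full1 _ (hR2 (a.fn i))
  refine ⟨val hl (mk a.ty W fun i => a.wt i ⊓ tv φ (cons (a.fn i) (cons (W i) w))), fun y => ?_⟩
  obtain ⟨y, rfl⟩ := exists_name y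
  rw [E_val]
  constructor
  · intro hy
    have h1 : bmem y (mk a.ty W fun i => a.wt i ⊓ tv φ (cons (a.fn i) (cons (W i) w))) ≤
        ⨆ x : BSet D, bmem x a ⊓ tv φ (cons x (cons y w)) := by
      rw [bmem]
      refine iSup_le fun i => ?_
      change (a.wt i ⊓ tv φ (cons (a.fn i) (cons (W i) w))) ⊓ beq y (W i) ≤ _
      refine le_iSup_of_le (a.fn i) (le_inf ?_ ?_)
      · exact inf_le_left.trans (inf_le_left.trans (wt_le_bmem a i))
      · have h2 := hR2 (a.fn i) (W i) y
        rw [beq_symm] at h2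
        exact le_trans (le_inf inf_le_right (inf_le_left.trans inf_le_right)) h2
    obtain ⟨x, hx⟩ := exists_of_iSup hl (bf_ext1_bmem_inf a (hR1 y)) (hl.mono h1 hy)
    obtain ⟨hx1, hx2⟩ := hl.inf_iff.1 hx
    exact ⟨val hl x, E_val.2 hx1, (hs x y).2 hx2⟩
  · rintro ⟨x, hx, hxy⟩
    obtain ⟨x, rfl⟩ := exists_name x
    have h1 := hl.inf (E_val.1 hx) ((hs x y).1 hxy)
    -- the value of the function at `x` is a value of the name
    have h2 : bmem x a ⊓ tv φ (cons x (cons y w)) ≤
        ⨆ z, bmem z (mk a.ty W fun i => a.wt i ⊓ tv φ (cons (a.fn i) (cons (W i) w))) ⊓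
          tv φ (cons x (cons z w)) := by
      rw [bmem, iSup_inf_eq]
      refine iSup_le fun i => le_iSup_of_le (W i) ?_
      have h3 := hR1 y x (a.fn i)
      have h4 : tv φ (cons (a.fn i) (cons y w)) ≤ tv φ (cons (a.fn i) (cons (W i) w)) := by
        rw [← hW i]
        exact le_iSup (fun y => tv φ (cons (a.fn i) (cons y w))) y
      have h5 : a.wt i ⊓ beq x (a.fn i) ⊓ tv φ (cons x (cons y w)) ≤
          tv φ (cons (a.fn i) (cons (W i) w)) := by
        refine le_trans ?_ h4
        refine le_trans (le_inf (inf_le_left.trans inf_le_right) inf_le_right) h3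
      refine le_inf ?_ ?_
      · refine le_trans ?_ (wt_le_bmem (mk a.ty W fun i =>
          a.wt i ⊓ tv φ (cons (a.fn i) (cons (W i) w))) i)
        exact le_inf (inf_le_left.trans inf_le_left) h5
      · have h6 := hR1 (W i) (a.fn i) x
        rw [beq_symm] at h6
        exact le_trans (le_inf (inf_le_left.trans inf_le_right) h5) h6
    obtain ⟨z, hz⟩ := exists_of_iSup hl (bf_ext1_bmem_inf _ (hR2 x)) (hl.mono h2 h1)
    obtain ⟨hz1, hz2⟩ := hl.inf_iff.1 hz
    have h3 := (h _ hx).unique hxy ((hs x z).2 hz2)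
    rw [← E_val (hl := hl)] at hz1 ⊢
    rwa [h3]

theorem ax_choice (a : X hl) (h1 : ∀ x, E hl x a → ∃ y, E hl y x)
    (h2 : ∀ x y, E hl x a → E hl y a → (∃ z, E hl z x ∧ E hl z y) → x = y) :
    ∃ c, ∀ x, E hl x a → ∃! y, E hl y x ∧ E hl y c := by
  classical
  obtain ⟨u, hu⟩ := ax_union a
  obtain ⟨a, rfl⟩ := exists_name a
  obtain ⟨u, rfl⟩ := exists_name u
  -- the index set of the union, well-ordered
  let lt : u.ty → u.ty → Prop := WellOrderingRel
  -- the truth value: `i` is the first index with `u.fn i ∈ x`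
  let fst : BSet D → u.ty → D := fun x i => bmem (u.fn i) x ⊓
    ⨅ (k : u.ty) (_ : lt k i), (bmem (u.fn k) x)ᶜ
  have hfst_ext : ∀ i, Ext1 fun x => fst x i := by
    intro i
    refine ext1_inf (fun x x' => bmem_congr_right _ _ _) ?_
    intro x x'
    refine le_iInf₂ fun k hk => ?_
    refine le_trans (inf_le_inf_left _ (iInf₂_le k hk)) ?_
    exact bf_ext1_compl (R := fun x => bmem (u.fn k) x) (fun x x' => bmem_congr_right _ _ _) x x'
  have hfst_sup : ∀ x i, bmem (u.fn i) x ≤ ⨆ k, fst x k := by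
    intro x i
    induction i using (WellOrderingRel.isWellOrder (α := u.ty)).wf.induction with
    | _ i ih =>
      have h3 : (⨆ (k : u.ty) (_ : lt k i), bmem (u.fn k) x) ≤ ⨆ k, fst x k :=
        iSup₂_le fun k hk => ih k hk
      have h4 : (⨆ (k : u.ty) (_ : lt k i), bmem (u.fn k) x) ⊔
          (⨅ (k : u.ty) (_ : lt k i), (bmem (u.fn k) x)ᶜ) = ⊤ := by
        have : (⨅ (k : u.ty) (_ : lt k i), (bmem (u.fn k) x)ᶜ) =
            (⨆ (k : u.ty) (_ : lt k i), bmem (u.fn k) x)ᶜ := by
          simp only [compl_iSup]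
        rw [this, sup_compl_eq_top]
      calc bmem (u.fn i) x = bmem (u.fn i) x ⊓ ((⨆ (k : u.ty) (_ : lt k i), bmem (u.fn k) x) ⊔
            (⨅ (k : u.ty) (_ : lt k i), (bmem (u.fn k) x)ᶜ)) := by rw [h4, inf_top_eq]
        _ ≤ _ := by
            rw [inf_sup_left]
            exact sup_le (inf_le_right.trans h3) (le_iSup (fst x) i)
  have hfst_disj : ∀ x i k, i ≠ k → fst x i ⊓ fst x k = ⊥ := by
    have key : ∀ x i k, lt k i → fst x i ⊓ fst x k = ⊥ := by
      intro x i k hki
      have h3 : fst x i ⊓ fst x k ≤ (bmem (u.fn k) x)ᶜ ⊓ bmem (u.fn k) x :=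
        inf_le_inf (inf_le_right.trans (iInf₂_le k hki)) inf_le_left
      rw [compl_inf_eq_bot] at h3
      exact le_bot_iff.1 h3
    intro x i k hik
    rcases trichotomous_of (WellOrderingRel (α := u.ty)) i k with h' | h' | h'
    · rw [inf_comm]
      exact key x k i h'
    · exact absurd h' hik
    · exact key x i k h'
  -- the choice set
  let g : BSet D → BSet D → D := fun y x => ⨆ i : u.ty, fst x i ⊓ beq y (u.fn i)
  have hg1 : ∀ y, Ext1 fun x => g y x := by
    intro y x x'
    simp only [g, inf_iSup_eq]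
    refine iSup_mono fun i => ?_
    refine le_inf ?_ (inf_le_right.trans inf_le_right)
    exact (inf_le_inf_left _ inf_le_left).trans (hfst_ext i x x')
  have hg2 : ∀ x, Ext1 fun y => g y x := by
    intro x y y'
    simp only [g, inf_iSup_eq]
    refine iSup_mono fun i => ?_
    refine le_inf (inf_le_right.trans inf_le_left) ?_
    rw [beq_symm y y']
    exact (inf_le_inf_left _ inf_le_right).trans (beq_trans _ _ _)
  -- `g y x` implies `y ∈ x`
  have hgmem : ∀ y x, g y x ≤ bmem y x := by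
    intro y x
    refine iSup_le fun i => ?_
    have h3 := bmem_congr_left (u.fn i) y x
    rw [beq_symm] at h3
    exact le_trans (le_inf inf_le_right (inf_le_left.trans inf_le_left)) h3
  have hguniq : ∀ y y' x, g y x ⊓ g y' x ≤ beq y y' := by
    intro y y' x
    simp only [g]
    rw [iSup_inf_eq]
    refine iSup_le fun i => ?_
    rw [inf_iSup_eq]
    refine iSup_le fun k => ?_
    by_cases hik : i = k
    · subst hik
      rw [beq_symm y']
      exact le_trans (le_inf (inf_le_left.trans inf_le_right) (inf_le_right.trans inf_le_right))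
        (beq_trans _ _ _)
    · have h3 : fst x i ⊓ beq y (u.fn i) ⊓ (fst x k ⊓ beq y' (u.fn k)) ≤ fst x i ⊓ fst x k :=
        inf_le_inf inf_le_left inf_le_left
      rw [hfst_disj x i k hik] at h3
      exact h3.trans bot_le
  let c : BSet D := mk (Σ _ : a.ty, u.ty) (fun p => u.fn p.2) fun p => a.wt p.1 ⊓ fst (a.fn p.1) p.2
  have hc : ∀ y, bmem y c = ⨆ x, bmem x a ⊓ g y x := by
    intro y
    rw [← iSup_wt_eq a (hg1 y)]
    have : bmem y c = ⨆ p : (Σ _ : a.ty, u.ty), (a.wt p.1 ⊓ fst (a.fn p.1) p.2) ⊓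
        beq y (u.fn p.2) := rfl
    rw [this, iSup_sigma]
    refine iSup_congr fun i => ?_
    simp only [g]
    rw [inf_iSup_eq]
    exact iSup_congr fun k => inf_assoc _ _ _
  refine ⟨val hl c, fun x hx => ?_⟩
  obtain ⟨x, rfl⟩ := exists_name x
  -- members of `c` in `x` are the values `g y x`
  have hcx : ∀ y, E hl (val hl y) (val hl x) → (E hl (val hl y) (val hl c) ↔ lam (g y x)) := by
    intro y hy
    rw [E_val, hc]
    constructor
    · intro h3
      obtain ⟨x', hx'⟩ := exists_of_iSup hl (bf_ext1_bmem_inf a (hg1 y)) h3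
      obtain ⟨h4, h5⟩ := hl.inf_iff.1 hx'
      have h6 := h2 (val hl x) (val hl x') hx (E_val.2 h4)
        ⟨val hl y, hy, E_val.2 (hl.mono (hgmem y x') h5)⟩
      have h7 := val_eq.1 h6
      rw [beq_symm] at h7
      exact hl.mono (hg1 y x' x) (hl.inf h7 h5)
    · intro h3
      exact hl.mono (le_iSup (fun x => bmem x a ⊓ g y x) x) (hl.inf (E_val.1 hx) h3)
  -- existence
  obtain ⟨y0, hy0⟩ := h1 _ hx
  obtain ⟨y0, rfl⟩ := exists_name y0
  have hy0u : E hl (val hl y0) (val hl u) := (hu _).2 ⟨_, hx, hy0⟩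
  have h3 : bmem y0 u ⊓ bmem y0 x ≤ ⨆ y, g y x := by
    rw [bmem, iSup_inf_eq]
    refine iSup_le fun i => ?_
    have h4 : (u.wt i ⊓ beq y0 (u.fn i)) ⊓ bmem y0 x ≤ bmem (u.fn i) x :=
      le_trans (le_inf (inf_le_left.trans inf_le_right) inf_le_right) (bmem_congr_left _ _ _)
    refine h4.trans ((hfst_sup x i).trans ?_)
    refine iSup_le fun k => le_iSup_of_le (u.fn k) ?_
    refine le_iSup_of_le k (le_inf le_rfl ?_)
    rw [beq_refl]
    exact le_top
  obtain ⟨y, hy⟩ := exists_of_iSup hl (hg2 x)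
    (hl.mono h3 (hl.inf (E_val.1 hy0u) (E_val.1 hy0)))
  have hyx : E hl (val hl y) (val hl x) := E_val.2 (hl.mono (hgmem y x) hy)
  refine ⟨val hl y, ⟨hyx, (hcx y hyx).2 hy⟩, ?_⟩
  rintro y' ⟨hy1, hy2⟩
  obtain ⟨y', rfl⟩ := exists_name y'
  rw [val_eq]
  exact hl.mono (hguniq y' y x) (hl.inf ((hcx y' hy1).1 hy2) hy)

/-- The quotient is a model of ZFC. -/
theorem isZFC (hl : IsUF lam) : IsZFC (E hl) where
  ext := ax_ext
  foundation := ax_foundation
  pairing := ax_pairing
  union := ax_union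
  powerset := ax_powerset
  infinity := ax_infinity
  separation := ax_separation
  replacement := ax_replacement
  choice := ax_choice

end BVM
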